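import Pool.Agent.NH61.OpenConv.Riesz

/-!
# The block lemma
-/

open Finset
open Pool.Agent.V1192.UOD

namespace Pool.Agent.NH61.OpenConv

noncomputable section

variable {p : ℕ} [Fact p.Prime] {N : ℕ} {J : Finset (Fin N)} {S : Finset (V p N)}
variable {μ : V p N → ℝ} {M : ℕ} {η : ℝ}

/-- The failure of multiplicativity is controlled by `BB`. -/
theorem pow_err {z : ℝ} (hz : |z| ≤ 1 / 2) (g h : V p N) :
    |z ^ dst J S g * z ^ dst J S h - z ^ dst J S (g + h)| ≤ 2 * BB J S g h := by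
  unfold BB
  rw [← pow_add]
  split_ifs with he
  · simp [he]
  · have hle := dst_add (J := J) (S := S) g h
    have e4 : ∀ n, |z ^ n| ≤ (1 / 2) ^ n := fun n => by
      rw [abs_pow]; exact pow_le_pow_left₀ (abs_nonneg _) hz n
    refine (abs_sub _ _).trans ?_
    have e6 := e4 (dst J S g + dst J S h)
    have e7 := e4 (dst J S (g + h))
    have e8 := half_pow_le hle
    linarith

theorem pow_lip {z w : ℝ} (hz : |z| ≤ 1 / 2) (hw : |w| ≤ 1 / 2) (n : ℕ) :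
    |z ^ n - w ^ n| ≤ |z - w| := by
  induction n with
  | zero => simp
  | succ n ih =>
    rcases Nat.eq_zero_or_pos n with rfl | hn
    · simp
    have h1 : z ^ (n + 1) - w ^ (n + 1) = z * (z ^ n - w ^ n) + (z - w) * w ^ n := by ring
    rw [h1]
    refine (abs_add_le _ _).trans ?_
    rw [abs_mul, abs_mul, abs_pow]
    have h2 : |w| ^ n ≤ 1 / 2 := by
      calc |w| ^ n ≤ |w| ^ 1 := pow_le_pow_of_le_one (abs_nonneg _) (by linarith) hn
        _ ≤ 1 / 2 := by rw [pow_one]; exact hw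
    have h3 : |z| * |z ^ n - w ^ n| ≤ 1 / 2 * |z - w| :=
      mul_le_mul hz ih (abs_nonneg _) (by norm_num)
    have h4 : |z - w| * |w| ^ n ≤ |z - w| * (1 / 2) :=
      mul_le_mul_of_nonneg_left h2 (abs_nonneg _)
    linarith

/-- The second moment. -/
theorem second_moment (hμ : ∀ v, 0 ≤ μ v) (hη : 0 < η)
    (hmax : ∀ q, Psi μ M η q ≤ Psi μ M η (J, S)) {z : ℝ} (hz : |z| ≤ 1 / 4)
    {k : ℕ} (hM : 8 * k ≤ M) (hμs : ∀ v, μ (-v) = μ v)
    {C : ℝ} (hC : ∑ v, μ v ≤ C) (q : V p N → ℂ) (hq : ∀ v, ‖q v‖ ≤ μ v) :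
    ∑ f : V p N, RW J S z f * ‖∑ v, q v * (chr f v - ((z ^ dst J S v : ℝ) : ℂ))‖ ^ 2
      ≤ 2 * (C * (2 * k * 4 ^ k * η) + 2 * (C * (η * (M + 1) + C * (1 / 2) ^ k)))
        + 4 * ((SP S).card * (1 / 2) ^ (M + 1)) * C ^ 2 := by
  classical
  have hC0 : 0 ≤ C := (sum_nonneg (fun g _ => hμ g)).trans hC
  set τ : ℝ := (SP S).card * (1 / 2) ^ (M + 1) with hτ
  have hτ0 : 0 ≤ τ := by positivity
  set ψ : V p N → ℝ := fun v => z ^ dst J S v with hψ
  have hψ1 : ∀ v, |ψ v| ≤ 1 := fun v => by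
    rw [hψ]; simp only [abs_pow]
    exact pow_le_one₀ (abs_nonneg _) (by linarith)
  have hψn : ∀ v, ψ (-v) = ψ v := fun v => by rw [hψ]; simp only [dst_neg]
  have hψ0 : ψ 0 = 1 := by rw [hψ]; simp only [dst_zero, pow_zero]
  set T : V p N → ℝ := TT J S z with hT
  have hTψ : ∀ v, |T v - ψ v| ≤ τ := fun v => TT_close hμ hη hmax hz v
  have hTψ2 : ∀ c v, |c| ≤ 1 → |c * T v - c * ψ v| ≤ τ := fun c v hc => by
    rw [← mul_sub, abs_mul]
    calc |c| * |T v - ψ v| ≤ 1 * τ := mul_le_mul hc (hTψ v) (abs_nonneg _) zero_le_one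
      _ = τ := one_mul _
  -- the kernel
  set K : V p N → V p N → ℝ := fun v w =>
    T (v - w) - ψ w * T v - ψ v * T (-w) + ψ v * ψ w * T 0 with hK
  have hKle : ∀ v w, |K v w| ≤ 2 * BB J S v (-w) + 4 * τ := by
    intro v w
    have h1 := abs_le.1 (hTψ (v - w))
    have h2 := abs_le.1 (hTψ2 (ψ w) v (hψ1 w))
    have h3 := abs_le.1 (hTψ2 (ψ v) (-w) (hψ1 v))
    have h4 := abs_le.1 (hTψ2 (ψ v * ψ w) 0 (by
      rw [abs_mul]; exact mul_le_one₀ (hψ1 v) (abs_nonneg _) (hψ1 w)))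
    have h5 := abs_le.1 (pow_err (J := J) (S := S) (by linarith : |z| ≤ 1 / 2) v (-w))
    rw [← sub_eq_add_neg] at h5
    change _ ≤ ψ v * ψ (-w) - ψ (v - w) ∧ ψ v * ψ (-w) - ψ (v - w) ≤ _ at h5
    rw [hψn] at h5
    rw [hψn] at h3
    rw [hψ0] at h4
    rw [hK]
    simp only
    rw [abs_le]
    constructor <;> nlinarith [h1.1, h1.2, h2.1, h2.2, h3.1, h3.2, h4.1, h4.2, h5.1, h5.2]
  have hKsum : ∀ v w, ∑ f : V p N, (RW J S z f : ℂ) * ((chr f v - (ψ v : ℂ))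
      * (starRingEnd ℂ) (chr f w - (ψ w : ℂ))) = (K v w : ℂ) := by
    intro v w
    have h1 : ∀ f : V p N, (RW J S z f : ℂ) * ((chr f v - (ψ v : ℂ))
      * (starRingEnd ℂ) (chr f w - (ψ w : ℂ)))
      = (RW J S z f : ℂ) * chr f (v - w) - ψ w * ((RW J S z f : ℂ) * chr f v)
        - ψ v * ((RW J S z f : ℂ) * chr f (-w)) + ψ v * ψ w * ((RW J S z f : ℂ) * chr f 0) := by
      intro f
      rw [map_sub, Complex.conj_ofReal, ← chr_neg, sub_eq_add_neg v w, chr_add, chr_zero]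
      ring
    simp only [h1]
    rw [sum_add_distrib, sum_sub_distrib, sum_sub_distrib, ← mul_sum, ← mul_sum, ← mul_sum,
      RW_hat, RW_hat, RW_hat, RW_hat, hK]
    push_cast
    ring
  have hmain : ((∑ f : V p N, RW J S z f * ‖∑ v, q v * (chr f v - (ψ v : ℂ))‖ ^ 2 : ℝ) : ℂ)
      = ∑ v, ∑ w, q v * (starRingEnd ℂ) (q w) * (K v w : ℂ) := by
    push_cast
    have h1 : ∀ f : V p N, (RW J S z f : ℂ) * (‖∑ v, q v * (chr f v - (ψ v : ℂ))‖ : ℂ) ^ 2
        = ∑ v, ∑ w, q v * (starRingEnd ℂ) (q w) * ((RW J S z f : ℂ) * ((chr f v - (ψ v : ℂ))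
      * (starRingEnd ℂ) (chr f w - (ψ w : ℂ)))) := by
      intro f
      rw [← Complex.mul_conj', map_sum, sum_mul_sum, mul_sum]
      refine sum_congr rfl (fun v _ => ?_)
      rw [mul_sum]
      refine sum_congr rfl (fun w _ => ?_)
      rw [map_mul]
      ring
    simp only [h1]
    rw [sum_comm]
    refine sum_congr rfl (fun v _ => ?_)
    rw [sum_comm]
    refine sum_congr rfl (fun w _ => ?_)
    rw [← mul_sum, hKsum]
  have hle : ∑ f : V p N, RW J S z f * ‖∑ v, q v * (chr f v - (ψ v : ℂ))‖ ^ 2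
      ≤ ∑ v, ∑ w, ‖q v‖ * ‖q w‖ * |K v w| := by
    have h1 : ∑ f : V p N, RW J S z f * ‖∑ v, q v * (chr f v - (ψ v : ℂ))‖ ^ 2
        ≤ ‖((∑ f : V p N, RW J S z f * ‖∑ v, q v * (chr f v - (ψ v : ℂ))‖ ^ 2 : ℝ) : ℂ)‖ := by
      rw [Complex.norm_real]
      exact le_abs_self _
    refine h1.trans ?_
    rw [hmain]
    refine (norm_sum_le _ _).trans (sum_le_sum (fun v _ => (norm_sum_le _ _).trans
      (sum_le_sum (fun w _ => ?_))))
    rw [norm_mul, norm_mul, Complex.norm_conj, Complex.norm_real]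
    rfl
  refine hle.trans ?_
  have h5 : ∑ v, ∑ w, ‖q v‖ * ‖q w‖ * |K v w|
      ≤ ∑ v, ∑ w, (2 * (‖q v‖ * ‖q w‖ * BB J S v (-w)) + 4 * τ * (‖q v‖ * ‖q w‖)) := by
    refine sum_le_sum (fun v _ => sum_le_sum (fun w _ => ?_))
    have := mul_le_mul_of_nonneg_left (hKle v w)
      (mul_nonneg (norm_nonneg (q v)) (norm_nonneg (q w)))
    linarith
  refine h5.trans ?_
  simp only [sum_add_distrib, ← mul_sum]
  have h6 : ∑ v, ∑ w, ‖q v‖ * ‖q w‖ * BB J S v (-w)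
      = ∑ v, ∑ w, ‖q v‖ * ‖q (-w)‖ * BB J S v w := by
    refine sum_congr rfl (fun v _ => ?_)
    refine Fintype.sum_equiv (Equiv.neg _) _ _ (fun w => ?_)
    simp
  have h7 : ∑ v, ‖q v‖ ≤ C := (sum_le_sum (fun v _ => hq v)).trans hC
  have h8 : ∑ v, ‖q (-v)‖ ≤ C := by
    rw [Fintype.sum_equiv (Equiv.neg _) (fun v => ‖q (-v)‖) (fun v => ‖q v‖) (fun v => by simp)]
    exact h7
  have h9 := total_error' (k := k) hμ hη hM (x := fun v => ‖q v‖) (y := fun v => ‖q (-v)‖)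
    (fun v => norm_nonneg _) (fun v => norm_nonneg _) hq
    (fun v => by rw [← hμs v]; exact hq (-v)) hmax h7 h8
  rw [h6]
  have h10 : ∑ v, ‖q v‖ * ∑ w, ‖q w‖ ≤ C ^ 2 := by
    rw [← sum_mul, sq]
    exact mul_le_mul h7 h7 (sum_nonneg (fun _ _ => norm_nonneg _)) hC0
  have h11 := mul_le_mul_of_nonneg_left h10 (by positivity : 0 ≤ 4 * τ)
  linarith

/-- Selection of an exact character. -/
theorem selection (hμ : ∀ v, 0 ≤ μ v) (hη : 0 < η)
    (hmax : ∀ q, Psi μ M η q ≤ Psi μ M η (J, S)) {z : ℝ} (hz : |z| ≤ 1 / 4) (hzp : |z| * p ≤ 1)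
    {k : ℕ} (hM : 8 * k ≤ M) (hμs : ∀ v, μ (-v) = μ v)
    {C : ℝ} (hC : ∑ v, μ v ≤ C) (q : Fin 5 → V p N → ℂ) (hq : ∀ r v, ‖q r v‖ ≤ μ v)
    {κ : ℝ} (hκ : 0 < κ)
    (h1 : C * (2 * k * 4 ^ k * η) + 2 * (C * (η * (M + 1) + C * (1 / 2) ^ k)) ≤ κ ^ 2 / 80)
    (h2 : 4 * ((SP S).card * (1 / 2) ^ (M + 1)) * C ^ 2 ≤ κ ^ 2 / 40)
    (h3 : (SP S).card * (1 / 2 : ℝ) ^ (M + 1) ≤ 1 / 2) :
    ∃ f : V p N, ∀ r, ‖∑ v, q r v * (chr f v - ((z ^ dst J S v : ℝ) : ℂ))‖ ≤ κ := by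
  classical
  by_contra hcon
  push Not at hcon
  set D : V p N → Fin 5 → ℝ := fun f r => ‖∑ v, q r v * (chr f v - ((z ^ dst J S v : ℝ) : ℂ))‖
    with hD
  have h4 : ∀ f, κ ^ 2 ≤ ∑ r, (D f r) ^ 2 := by
    intro f
    obtain ⟨r, hr⟩ := hcon f
    have h5 : κ ^ 2 ≤ (D f r) ^ 2 := pow_le_pow_left₀ hκ.le hr.le 2
    exact h5.trans (single_le_sum (f := fun r => (D f r) ^ 2) (fun _ _ => sq_nonneg _)
      (mem_univ r))
  have h5 : ∑ f, RW J S z f * κ ^ 2 ≤ ∑ f, RW J S z f * ∑ r, (D f r) ^ 2 :=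
    sum_le_sum (fun f _ => mul_le_mul_of_nonneg_left (h4 f) (RW_nonneg hzp f))
  have h6 : ∑ f, RW J S z f * ∑ r, (D f r) ^ 2 = ∑ r, ∑ f, RW J S z f * (D f r) ^ 2 := by
    simp only [mul_sum]
    exact sum_comm
  have h7 : ∀ r, ∑ f, RW J S z f * (D f r) ^ 2 ≤ κ ^ 2 / 20 := by
    intro r
    have := second_moment hμ hη hmax hz hM hμs hC (q r) (hq r)
    linarith
  have h8 : ∑ r : Fin 5, ∑ f, RW J S z f * (D f r) ^ 2 ≤ κ ^ 2 / 4 := by
    refine (sum_le_sum (fun r _ => h7 r)).trans ?_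
    simp
    linarith
  have h9 : 1 / 2 ≤ ∑ f, RW J S z f := by
    have h10 := RW_hat (J := J) (S := S) z (0 : V p N)
    simp only [chr_zero, mul_one] at h10
    have h11 : ∑ f, RW J S z f = TT J S z 0 := by exact_mod_cast h10
    rw [h11]
    have h12 := abs_le.1 (TT_close hμ hη hmax hz (0 : V p N))
    rw [dst_zero, pow_zero] at h12
    linarith [h12.1]
  rw [← sum_mul] at h5
  have hκ2 : 0 < κ ^ 2 := by positivity
  nlinarith

/-- The average over the unit vectors and their negatives. -/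
def avg (φ : V p N → ℂ) : ℂ :=
  (1 / (2 * N : ℂ)) * ∑ l : Fin N, (φ (Pi.single l 1) + φ (-Pi.single l 1))

/-- Distances of unit vectors. -/
theorem dst_unit (hμ : ∀ v, 0 ≤ μ v) (hη : 0 < η)
    (hmax : ∀ q, Psi μ M η q ≤ Psi μ M η (J, S)) (hM : 1 ≤ M) (j : Fin N) :
    dst J S (Pi.single j 1 : V p N) = if j ∈ J then 0 else 1 := by
  have hwt : wt J (Pi.single j 1 : V p N) ≤ if j ∈ J then 0 else 1 := by
    unfold wt
    split_ifs with hj
    · rw [Nat.le_zero, card_eq_zero, filter_eq_empty_iff]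
      rintro i _ ⟨hi, h0⟩
      rcases eq_or_ne i j with h | h
      · exact hi (h ▸ hj)
      · exact h0 (Pi.single_eq_of_ne h 1)
    · have : univ.filter (fun i => i ∉ J ∧ (Pi.single j 1 : V p N) i ≠ 0) ⊆ {j} := by
        intro i hi
        simp only [mem_filter, mem_univ, true_and] at hi
        rw [mem_singleton]
        by_contra hij
        exact hi.2 (Pi.single_eq_of_ne hij 1)
      exact (card_le_card this).trans (card_singleton j).le
  by_cases hj : j ∈ J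
  · simp only [hj, if_true] at hwt ⊢
    have := dst_le_wt (J := J) (S := S) (Pi.single j 1 : V p N)
    omega
  · simp only [hj, if_false] at hwt ⊢
    refine le_antisymm ((dst_le_wt _).trans hwt) ?_
    by_contra hcon
    have h0 : dst J S (Pi.single j 1 : V p N) = 0 := by omega
    have h1 := near_wt (J := J) (S := S) (Pi.single j 1 : V p N)
    rw [h0] at h1
    set l := near J S (Pi.single j 1 : V p N) with hl
    have h2 : wt J l ≤ M := by
      have e1 : l = Pi.single j 1 + (-((Pi.single j 1 : V p N) - l)) := by abel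
      rw [e1]
      have e2 := wt_add J (Pi.single j 1 : V p N) (-((Pi.single j 1 : V p N) - l))
      rw [wt_neg, h1] at e2
      omega
    have h3 := span_small hμ hη hmax (near_mem _) h2
    have hl0 : l = 0 := h3
    rw [hl0, sub_zero] at h1
    have h4 : j ∈ univ.filter (fun i => i ∉ J ∧ (Pi.single j 1 : V p N) i ≠ 0) := by
      simp [hj]
    have h5 : 0 < wt J (Pi.single j 1 : V p N) := card_pos.2 ⟨j, h4⟩
    omega

theorem avg_pow (hμ : ∀ v, 0 ≤ μ v) (hη : 0 < η)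
    (hmax : ∀ q, Psi μ M η q ≤ Psi μ M η (J, S)) (hM : 1 ≤ M) (hN : 0 < N) (z : ℝ) :
    avg (fun v : V p N => ((z ^ dst J S v : ℝ) : ℂ))
      = (((J.card : ℝ) / N + (1 - (J.card : ℝ) / N) * z : ℝ) : ℂ) := by
  classical
  have hN0 : (N : ℂ) ≠ 0 := by exact_mod_cast hN.ne'
  unfold avg
  simp only [dst_neg, dst_unit hμ hη hmax hM]
  have h1 : ∀ l : Fin N, (((z ^ (if l ∈ J then 0 else 1) : ℝ) : ℂ)
      + ((z ^ (if l ∈ J then 0 else 1) : ℝ) : ℂ)) = 2 * (z : ℂ) + if l ∈ J then 2 * (1 - (z : ℂ)) else 0 := by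
    intro l
    split_ifs
    · simp; ring
    · simp; ring
  simp only [h1, sum_add_distrib, sum_const, card_univ, Fintype.card_fin, nsmul_eq_mul]
  rw [← sum_filter]
  simp only [filter_univ_mem, sum_const, nsmul_eq_mul]
  push_cast
  field_simp
  ring

theorem avg_chr (f : V p N) : ∃ a : ℝ, avg (chr f) = (a : ℂ) := by
  refine ⟨(1 / (2 * N : ℝ)) * ∑ l : Fin N, 2 * (chr f (Pi.single l 1)).re, ?_⟩
  unfold avg
  push_cast
  congr 1
  refine sum_congr rfl (fun l _ => ?_)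
  rw [chr_neg, Complex.add_conj]
  push_cast
  ring

variable (p) in
/-- The block lemma. -/
theorem block (C κ : ℝ) (hC : 1 ≤ C) (hκ : 0 < κ) : ∃ N : ℕ, 0 < N ∧ ∀ μ₀ : V p N → ℝ,
    (∀ v, 0 ≤ μ₀ v) → ∑ v, μ₀ v ≤ C → ∃ ψ : ℝ → V p N → ℝ,
      (∀ u : ℝ, |u| ≤ 1 / 8 → ψ u 0 = 1) ∧ (∀ u : ℝ, |u| ≤ 1 / 8 → ∀ v, |ψ u v| ≤ 1) ∧
      (∀ u : ℝ, |u| ≤ 1 / 8 → avg (fun v => (ψ u v : ℂ)) = u) ∧
      (∀ u : ℝ, |u| ≤ 1 / 8 → ∀ x y : V p N → ℝ, (∀ v, 0 ≤ x v) → (∀ v, 0 ≤ y v) →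
        (∀ v, x v ≤ μ₀ v) → (∀ v, y v ≤ μ₀ v) →
        ∑ g, ∑ h, x g * y h * |ψ u g * ψ u h - ψ u (g + h)| ≤ κ) ∧
      (∀ u w : ℝ, |u| ≤ 1 / 8 → |w| ≤ 1 / 8 → ∀ v, |ψ u v - ψ w v| ≤ 2 * |u - w|) ∧
      (∀ u : ℝ, |u| ≤ 1 / (16 * p) → ∀ q : Fin 4 → V p N → ℂ, (∀ r v, ‖q r v‖ ≤ μ₀ v) →
        ∃ f : V p N, (∀ r, ‖∑ v, q r v * (chr f v - (ψ u v : ℂ))‖ ≤ κ) ∧
          ∃ a : ℝ, avg (chr f) = a ∧ |a - u| ≤ κ) := by
  classical
  have hp2 : (2 : ℝ) ≤ p := by exact_mod_cast (Fact.out : p.Prime).two_le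
  set κ' : ℝ := min κ 1 with hκ'
  have hκ'0 : 0 < κ' := lt_min hκ one_pos
  have hκ'κ : κ' ≤ κ := min_le_left _ _
  have hκ'1 : κ' ≤ 1 := min_le_right _ _
  set C' : ℝ := 2 * C + 1 with hC'
  have hC'0 : 0 < C' := by linarith
  set e1 : ℝ := κ' ^ 2 / 80 with he1
  have he10 : 0 < e1 := by positivity
  have he1κ : 2 * e1 ≤ κ := by
    have : κ' ^ 2 ≤ κ' := by nlinarith
    rw [he1]; linarith
  obtain ⟨k, hk⟩ := exists_pow_lt_of_lt_one (show 0 < e1 / (6 * C' ^ 2) by positivity)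
    (show (1 / 2 : ℝ) < 1 by norm_num)
  set θ : ℝ := e1 / (6 * C') with hθ
  have hθ0 : 0 < θ := by positivity
  obtain ⟨s₀, hs₀⟩ := exists_nat_ge (C' / θ)
  -- choose `M`
  obtain ⟨M, hM8, hM1, hM2, hM3⟩ : ∃ M : ℕ, 8 * k + 1 ≤ M ∧
      C' * (2 * k * 4 ^ k * (θ / (M + 1))) ≤ e1 / 3 ∧
      (p : ℝ) ^ s₀ * (1 / 2) ^ (M + 1) ≤ κ' ^ 2 / (160 * C' ^ 2) ∧
      (p : ℝ) ^ s₀ * (1 / 2) ^ (M + 1) ≤ 1 / 2 := by
    have t1 : Filter.Tendsto (fun M : ℕ => C' * (2 * k * 4 ^ k * (θ * (1 / ((M : ℝ) + 1)))))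
        Filter.atTop (nhds (C' * (2 * k * 4 ^ k * (θ * 0)))) :=
      (((tendsto_one_div_add_atTop_nhds_zero_nat).const_mul θ).const_mul _).const_mul _
    rw [mul_zero, mul_zero, mul_zero] at t1
    have t2 : Filter.Tendsto (fun M : ℕ => (p : ℝ) ^ s₀ * (1 / 2) ^ (M + 1))
        Filter.atTop (nhds ((p : ℝ) ^ s₀ * 0)) :=
      ((tendsto_pow_atTop_nhds_zero_of_lt_one (by norm_num) (by norm_num :
        (1 / 2 : ℝ) < 1)).comp (Filter.tendsto_add_atTop_nat 1)).const_mul _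
    rw [mul_zero] at t2
    have u1 := t1.eventually (ge_mem_nhds (show 0 < e1 / 3 by positivity))
    have u2 := t2.eventually (ge_mem_nhds (show 0 < κ' ^ 2 / (160 * C' ^ 2) by positivity))
    have u3 := t2.eventually (ge_mem_nhds (show (0 : ℝ) < 1 / 2 by norm_num))
    obtain ⟨M, hM⟩ := (u1.and (u2.and (u3.and (Filter.eventually_ge_atTop (8 * k + 1))))).exists
    exact ⟨M, hM.2.2.2, by have := hM.1; rwa [mul_one_div] at this, hM.2.1, hM.2.2.1⟩
  set η : ℝ := θ / (M + 1) with hη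
  have hη0 : 0 < η := by positivity
  have hηM : η * (M + 1) = θ := by rw [hη]; field_simp
  obtain ⟨N, hN⟩ := exists_nat_gt (16 * p * C' / η)
  have hN0 : (0 : ℝ) < N := lt_of_le_of_lt (by positivity) hN
  have hNpos : 0 < N := by exact_mod_cast hN0
  refine ⟨N, hNpos, fun μ₀ hμ₀ hμ₀C => ?_⟩
  -- the symmetrised mass
  set α : V p N → ℝ := fun v => (1 / (2 * N : ℝ)) * ∑ l : Fin N,
    ((if v = Pi.single l 1 then 1 else 0) + (if v = -Pi.single l 1 then 1 else 0)) with hα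
  have hα0 : ∀ v, 0 ≤ α v := fun v => by
    rw [hα]
    refine mul_nonneg (by positivity) (sum_nonneg (fun l _ => ?_))
    split_ifs <;> norm_num
  have hαF : ∀ F : V p N → ℂ, ∑ v, (α v : ℂ) * F v = avg F := by
    intro F
    have h1 : ∀ v, (α v : ℂ) * F v = ∑ l : Fin N, (1 / (2 * N : ℂ)) *
        ((if v = Pi.single l 1 then F v else 0) + (if v = -Pi.single l 1 then F v else 0)) := by
      intro v
      simp only [hα]
      push_cast
      rw [mul_assoc, sum_mul, mul_sum]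
      refine sum_congr rfl (fun l _ => ?_)
      congr 1
      split_ifs <;> simp <;> ring
    simp only [h1]
    rw [sum_comm]
    unfold avg
    rw [mul_sum]
    refine sum_congr rfl (fun l _ => ?_)
    rw [← mul_sum, sum_add_distrib]
    simp
  have hαsum : ∑ v, α v = 1 := by
    have h1 := hαF (fun _ => 1)
    simp only [mul_one] at h1
    have h2 : avg (fun _ : V p N => (1 : ℂ)) = 1 := by
      unfold avg
      simp only [sum_add_distrib, sum_const, card_univ, Fintype.card_fin, nsmul_eq_mul, mul_one]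
      have : (N : ℂ) ≠ 0 := by exact_mod_cast hNpos.ne'
      field_simp
      norm_num
    rw [h2] at h1
    exact_mod_cast h1
  have hαn : ∀ v, α (-v) = α v := by
    intro v
    rw [hα]
    simp only
    congr 1
    refine sum_congr rfl (fun l _ => ?_)
    rw [add_comm]
    congr 2
    · rw [neg_inj]
    · rw [neg_eq_iff_eq_neg]
  set μ : V p N → ℝ := fun v => μ₀ v + μ₀ (-v) + α v with hμdef
  have hμ : ∀ v, 0 ≤ μ v := fun v => by
    have := hμ₀ v; have := hμ₀ (-v); have := hα0 v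
    rw [hμdef]; simp only; linarith
  have hμs : ∀ v, μ (-v) = μ v := fun v => by
    rw [hμdef]; simp only [neg_neg, hαn]; ring
  have hμC : ∑ v, μ v ≤ C' := by
    rw [hμdef]
    simp only [sum_add_distrib, hαsum]
    rw [Fintype.sum_equiv (Equiv.neg _) (fun v => μ₀ (-v)) (fun v => μ₀ v) (fun v => by simp)]
    linarith
  have hμ₀μ : ∀ v, μ₀ v ≤ μ v := fun v => by
    have := hμ₀ (-v); have := hα0 v
    rw [hμdef]; simp only; linarith
  obtain ⟨⟨J, S⟩, hmax⟩ := exists_max μ M η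
  have hS : S.card ≤ s₀ := by
    have h1 := (card_S_le hμ hη0 hmax).trans hμC
    rw [hηM] at h1
    have h2 : (S.card : ℝ) ≤ C' / θ := by
      rw [le_div_iff₀ hθ0]; linarith
    exact_mod_cast h2.trans hs₀
  have hSP : ((SP S).card : ℝ) ≤ (p : ℝ) ^ s₀ := by
    have h1 : (SP S).card ≤ p ^ s₀ :=
      (card_SP_le S).trans (Nat.pow_le_pow_right (Fact.out : p.Prime).pos hS)
    exact_mod_cast h1
  have hSP1 : ((SP S).card : ℝ) * (1 / 2) ^ (M + 1) ≤ (p : ℝ) ^ s₀ * (1 / 2) ^ (M + 1) :=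
    mul_le_mul_of_nonneg_right hSP (by positivity)
  have herr : C' * (2 * k * 4 ^ k * η) + 2 * (C' * (η * (M + 1) + C' * (1 / 2) ^ k)) ≤ e1 := by
    rw [hηM]
    have h1 : 2 * (C' * θ) = e1 / 3 := by rw [hθ]; field_simp; norm_num
    have h2 : 2 * (C' * (C' * (1 / 2) ^ k)) ≤ e1 / 3 := by
      rw [lt_div_iff₀ (by positivity)] at hk
      nlinarith
    nlinarith
  have hτ2 : 4 * ((SP S).card * (1 / 2) ^ (M + 1)) * C' ^ 2 ≤ κ' ^ 2 / 40 := by
    have h1 := hSP1.trans hM2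
    have h2 := mul_le_mul_of_nonneg_right h1 (by positivity : 0 ≤ 4 * C' ^ 2)
    have h3 : κ' ^ 2 / (160 * C' ^ 2) * (4 * C' ^ 2) = κ' ^ 2 / 40 := by field_simp; norm_num
    linarith
  set j : ℝ := (J.card : ℝ) / N with hj
  have hj0 : 0 ≤ j := by positivity
  have hjp : j * (16 * p) ≤ 1 := by
    have h1 := (card_J_le hμ hη0 hmax).trans hμC
    rw [div_lt_iff₀ hη0] at hN
    have h2 : η * (J.card * (16 * p)) ≤ η * N := by nlinarith
    have h3 := le_of_mul_le_mul_left h2 hη0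
    rw [hj, div_mul_eq_mul_div, div_le_one hN0]
    exact h3
  have hj32 : j ≤ 1 / 32 := by nlinarith
  have hj1 : 31 / 32 ≤ 1 - j := by linarith
  set ζ : ℝ → ℝ := fun u => (u - j) / (1 - j) with hζ
  have hζb : ∀ u : ℝ, |u| ≤ 1 / 8 → |ζ u| ≤ 1 / 4 := by
    intro u hu
    rw [hζ]
    simp only
    rw [abs_div, abs_of_pos (by linarith : (0 : ℝ) < 1 - j), div_le_iff₀ (by linarith)]
    have h1 := abs_sub u j
    rw [abs_of_nonneg hj0] at h1
    linarith
  have hζp : ∀ u : ℝ, |u| ≤ 1 / (16 * p) → |ζ u| * p ≤ 1 := by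
    intro u hu
    rw [hζ]
    simp only
    rw [abs_div, abs_of_pos (by linarith : (0 : ℝ) < 1 - j), div_mul_eq_mul_div,
      div_le_iff₀ (by linarith)]
    have h1 := abs_sub u j
    rw [abs_of_nonneg hj0] at h1
    rw [le_div_iff₀ (by positivity)] at hu
    nlinarith
  have hp8 : ∀ u : ℝ, |u| ≤ 1 / (16 * p) → |u| ≤ 1 / 8 := by
    intro u hu
    refine hu.trans ?_
    rw [div_le_div_iff₀ (by positivity) (by norm_num)]
    linarith
  have hζavg : ∀ u : ℝ, j + (1 - j) * ζ u = u := by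
    intro u
    rw [hζ]
    have : (1 - j) ≠ 0 := by linarith
    simp only
    field_simp
    ring
  refine ⟨fun u v => ζ u ^ dst J S v, ?_, ?_, ?_, ?_, ?_, ?_⟩
  · intro u _
    simp [dst_zero]
  · intro u hu v
    rw [abs_pow]
    exact pow_le_one₀ (abs_nonneg _) ((hζb u hu).trans (by norm_num))
  · intro u hu
    rw [avg_pow hμ hη0 hmax (by omega) hNpos, ← hj, hζavg]
  · intro u hu x y hx hy hxμ hyμ
    have hxC : ∑ g, x g ≤ C' := (sum_le_sum (fun v _ => hxμ v)).trans (hμ₀C.trans (by linarith))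
    have hyC : ∑ g, y g ≤ C' := (sum_le_sum (fun v _ => hyμ v)).trans (hμ₀C.trans (by linarith))
    have h1 := total_error' (k := k) hμ hη0 (by omega) hx hy
      (fun v => (hxμ v).trans (hμ₀μ v)) (fun v => (hyμ v).trans (hμ₀μ v)) hmax hxC hyC
    calc ∑ g, ∑ h, x g * y h * |ζ u ^ dst J S g * ζ u ^ dst J S h - ζ u ^ dst J S (g + h)|
        ≤ ∑ g, ∑ h, 2 * (x g * y h * BB J S g h) := by
          refine sum_le_sum (fun g _ => sum_le_sum (fun h _ => ?_))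
          have := mul_le_mul_of_nonneg_left (pow_err (J := J) (S := S)
            ((hζb u hu).trans (by norm_num : (1 / 4 : ℝ) ≤ 1 / 2)) g h)
            (mul_nonneg (hx g) (hy h))
          linarith
      _ = 2 * ∑ g, ∑ h, x g * y h * BB J S g h := by
          rw [mul_sum]
          exact sum_congr rfl (fun g _ => by rw [mul_sum])
      _ ≤ κ := by linarith
  · intro u w hu hw v
    refine (pow_lip ((hζb u hu).trans (by norm_num)) ((hζb w hw).trans (by norm_num)) _).trans ?_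
    have h1 : ζ u - ζ w = (u - w) / (1 - j) := by rw [hζ]; simp only; ring
    rw [h1, abs_div, abs_of_pos (by linarith : (0 : ℝ) < 1 - j), div_le_iff₀ (by linarith)]
    nlinarith [abs_nonneg (u - w)]
  · intro u hu q hq
    set q' : Fin 5 → V p N → ℂ := Fin.cons (fun v => (α v : ℂ)) q with hq'
    obtain ⟨f, hf⟩ := selection hμ hη0 hmax (hζb u (hp8 u hu)) (hζp u hu) (k := k) (by omega)
      hμs hμC q' (by
        intro r v
        refine Fin.cases ?_ (fun r => ?_) r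
        · rw [hq', Fin.cons_zero, Complex.norm_real, Real.norm_of_nonneg (hα0 v)]
          have := hμ₀ v; have := hμ₀ (-v)
          rw [hμdef]; simp only; linarith
        · rw [hq', Fin.cons_succ]
          exact (hq r v).trans (hμ₀μ v)) hκ'0 (herr.trans he1.le) hτ2 (hSP1.trans hM3)
    refine ⟨f, fun r => ?_, ?_⟩
    · have := hf r.succ
      rw [hq', Fin.cons_succ] at this
      exact this.trans hκ'κ
    · obtain ⟨a, ha⟩ := avg_chr f
      refine ⟨a, ha, ?_⟩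
      have h1 := hf 0
      rw [hq', Fin.cons_zero] at h1
      have h2 : ∑ v, (α v : ℂ) * (chr f v - ((ζ u ^ dst J S v : ℝ) : ℂ)) = ((a - u : ℝ) : ℂ) := by
        simp only [mul_sub, sum_sub_distrib]
        rw [hαF, hαF (fun v => ((ζ u ^ dst J S v : ℝ) : ℂ)), ha,
          avg_pow hμ hη0 hmax (by omega) hNpos, ← hj, hζavg]
        push_cast
        ring
      rw [h2, Complex.norm_real] at h1
      exact h1.trans hκ'κ

end

end Pool.Agent.NH61.OpenConv
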