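import Pool.Agent.V1192.UOE

/-!
# Open multiplication: centrality of idempotents, and countably many coordinates
-/

open Filter Topology Pool.Agent.V1192.GA Pool.Agent.V1192 Metric

namespace Pool.Agent.NH61.OpenConv

/-- Openness of the multiplication, pointwise. -/
def OpenMul (A : Type) [NormedRing A] : Prop :=
  ∀ (a b : A), ∀ ε > 0, ∃ δ > 0, ∀ w ∈ ball (a * b) δ, ∃ x ∈ ball a ε, ∃ y ∈ ball b ε, x * y = w

section Central

variable {A : Type} [NormedRing A] [NormedAlgebra ℂ A] [CompleteSpace A]

/-- Half of the centrality of idempotents. -/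
theorem idem_half (hA : OpenMul A) (e : A) (he : e * e = e) (t : A) :
    (1 - e) * t * e = 0 := by
  set f : A := 1 - e with hf
  have hff : f * f = f := UO.compl_idem e he
  have hef : e * f = 0 := by rw [hf, mul_sub, mul_one, he, sub_self]
  have hfe : f * e = 0 := by rw [hf, sub_mul, one_mul, he, sub_self]
  have h1 : e + f = 1 := by rw [hf]; abel
  set K : ℝ := ‖e‖ * ‖e‖ + ‖f‖ * ‖f‖ + 1 with hK
  have hK0 : 0 < K := by positivity
  obtain ⟨δ, hδ, hopen⟩ := hA e f (1 / K) (by positivity)
  -- scale the element `f t e`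
  set h0 : A := f * t * e with hh0
  obtain ⟨c, hc0, hc⟩ : ∃ c : ℂ, c ≠ 0 ∧ ‖c • h0‖ < δ := by
    refine ⟨((δ / (‖h0‖ + 1) / 2 : ℝ) : ℂ), ?_, ?_⟩
    · have : δ / (‖h0‖ + 1) / 2 ≠ 0 := by positivity
      exact_mod_cast this
    · rw [norm_smul, Complex.norm_real, Real.norm_of_nonneg (by positivity)]
      have h2 : (0 : ℝ) < ‖h0‖ + 1 := by positivity
      have h3 : δ / (‖h0‖ + 1) / 2 * ‖h0‖ ≤ δ / 2 := by
        rw [div_div, div_mul_eq_mul_div, div_le_div_iff₀ (by positivity) (by positivity)]
        nlinarith [norm_nonneg h0]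
      linarith
  obtain ⟨x, hx, y, hy, hxy⟩ := hopen (c • h0) (by
    rw [hef, mem_ball_zero_iff]; exact hc)
  rw [mem_ball, dist_eq_norm] at hx hy
  have hu : IsUnit (e * x * e + f) := by
    have h2 : e * x * e + f = 1 - e * (e - x) * e := by
      rw [hf]
      have : e * (e - x) * e = e - e * x * e := by
        calc e * (e - x) * e = e * e * e - e * x * e := by noncomm_ring
          _ = _ := by rw [he, he]
      rw [this]; abel
    rw [h2]
    have h3 : ‖e * (e - x) * e‖ < 1 := by
      calc ‖e * (e - x) * e‖ ≤ ‖e‖ * ‖e - x‖ * ‖e‖ :=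
            (norm_mul_le _ _).trans (mul_le_mul_of_nonneg_right (norm_mul_le _ _) (norm_nonneg _))
        _ = (‖e‖ * ‖e‖) * ‖x - e‖ := by rw [norm_sub_rev e x]; ring
        _ ≤ (‖e‖ * ‖e‖) * (1 / K) := mul_le_mul_of_nonneg_left hx.le (by positivity)
        _ < 1 := by
          rw [mul_one_div, div_lt_one hK0, hK]
          nlinarith [mul_self_nonneg ‖f‖]
    exact isUnit_one_sub_of_norm_lt_one h3
  have hw : IsUnit (f * y * f + e) := by
    have h2 : f * y * f + e = 1 - f * (f - y) * f := by
      have : f * (f - y) * f = f - f * y * f := by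
        calc f * (f - y) * f = f * f * f - f * y * f := by noncomm_ring
          _ = _ := by rw [hff, hff]
      rw [this, ← h1]; abel
    rw [h2]
    have h3 : ‖f * (f - y) * f‖ < 1 := by
      calc ‖f * (f - y) * f‖ ≤ ‖f‖ * ‖f - y‖ * ‖f‖ :=
            (norm_mul_le _ _).trans (mul_le_mul_of_nonneg_right (norm_mul_le _ _) (norm_nonneg _))
        _ = (‖f‖ * ‖f‖) * ‖y - f‖ := by rw [norm_sub_rev f y]; ring
        _ ≤ (‖f‖ * ‖f‖) * (1 / K) := mul_le_mul_of_nonneg_left hy.le (by positivity)
        _ < 1 := by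
          rw [mul_one_div, div_lt_one hK0, hK]
          nlinarith [mul_self_nonneg ‖e‖]
    exact isUnit_one_sub_of_norm_lt_one h3
  have h2 := UO.peirce_core e f x y (c • h0) he hff hef hfe h1 hxy (by
    rw [mul_smul_comm, smul_mul_assoc, hh0]
    congr 1
    calc f * (f * t * e) * e = (f * f) * t * (e * e) := by noncomm_ring
      _ = _ := by rw [hff, he]) hu hw
  exact (smul_eq_zero.1 h2).resolve_left hc0

/-- In an algebra with open multiplication idempotents are central. -/
theorem idem_central (hA : OpenMul A) (e : A) (he : e * e = e) (t : A) : e * t = t * e := by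
  have h1 := idem_half hA e he t
  have h2 := idem_half hA (1 - e) (UO.compl_idem e he) t
  have h3 : t * e = e * t * e := by
    have : (1 - e) * t * e = t * e - e * t * e := by noncomm_ring
    rw [this] at h1
    exact sub_eq_zero.1 h1
  have h4 : e * t = e * t * e := by
    have : (1 - (1 - e)) * t * (1 - e) = e * t - e * t * e := by noncomm_ring
    rw [this] at h2
    exact sub_eq_zero.1 h2
  rw [h3, ← h4]

end Central

section Grp

/-- Infinite vector spaces over a finite field have countably many independent coordinates. -/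
theorem exists_coordN (K W : Type) [Field K] [Finite K] [AddCommGroup W] [Module K W]
    [Infinite W] : ∃ f : W → (ℕ → K), (∀ v w, f (v + w) = f v + f w) ∧
      ∃ t : ℕ → W, ∀ j, f (t j) = Pi.single j 1 := by
  classical
  have hinf2 : Infinite (Module.Basis.ofVectorSpaceIndex K W) := by
    by_contra hcon
    rw [not_infinite_iff_finite] at hcon
    have h1 : Finite W := by
      have := Fintype.ofFinite (Module.Basis.ofVectorSpaceIndex K W)
      exact Finite.of_equiv _ (Module.Basis.ofVectorSpace K W).equivFun.toEquiv.symm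
    exact not_finite W
  set f := Infinite.natEmbedding (Module.Basis.ofVectorSpaceIndex K W) with hf
  refine ⟨fun w j => (Module.Basis.ofVectorSpace K W).coord (f j) w, fun v w => ?_,
    fun j => Module.Basis.ofVectorSpace K W (f j), fun j => ?_⟩
  · ext j
    exact map_add ((Module.Basis.ofVectorSpace K W).coord (f j)) v w
  · ext i
    simp only
    rw [Module.Basis.coord_apply, Module.Basis.repr_self]
    by_cases hij : i = j
    · subst hij
      rw [Finsupp.single_eq_same, Pi.single_eq_same]
    · rw [Pi.single_eq_of_ne hij, Finsupp.single_eq_of_ne]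
      exact fun h => hij (f.injective h)

/-- An infinite abelian group of bounded exponent maps to `F_p^ℕ` with all unit vectors in the
image. -/
theorem exists_mapsN (G : Type) [CommGroup G] [Infinite G] (n : ℕ) (hn : 0 < n)
    (hG : ∀ g : G, g ^ n = 1) :
    ∃ p : ℕ, p.Prime ∧ ∃ ψ : G → (ℕ → ZMod p), (∀ g h, ψ (g * h) = ψ g + ψ h) ∧
      ∃ t : ℕ → G, ∀ j, ψ (t j) = Pi.single j 1 := by
  classical
  have hex : ∃ d : ℕ, 0 < d ∧ ((powMonoidHom d : G →* G).range : Set G).Finite := by
    refine ⟨n, hn, (Set.finite_singleton (1 : G)).subset ?_⟩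
    rintro _ ⟨g, rfl⟩
    exact hG g
  obtain ⟨hd0, hdfin⟩ := Nat.find_spec hex
  set d := Nat.find hex with hd
  have hmin : ∀ m, 0 < m → m < d → ¬ ((powMonoidHom m : G →* G).range : Set G).Finite :=
    fun m hm0 hm h => Nat.find_min hex hm ⟨hm0, h⟩
  have hd1 : d ≠ 1 := by
    intro h
    have : ((powMonoidHom d : G →* G).range : Set G) = Set.univ := by
      ext g
      simp only [SetLike.mem_coe, MonoidHom.mem_range, powMonoidHom_apply, Set.mem_univ, iff_true]
      exact ⟨g, by rw [h, pow_one]⟩
    rw [this] at hdfin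
    exact Set.infinite_univ hdfin
  set p := d.minFac with hp
  have hpp : p.Prime := Nat.minFac_prime hd1
  obtain ⟨k, hk⟩ : ∃ k, d = p * k := Nat.minFac_dvd d
  have hk0 : 0 < k := by
    rcases Nat.eq_zero_or_pos k with h | h
    · rw [h, mul_zero] at hk; omega
    · exact h
  have hkd : k < d := by
    rw [hk]
    exact lt_mul_of_one_lt_left hk0 hpp.one_lt
  have hkinf := hmin k hk0 hkd
  set K : Subgroup G := (powMonoidHom d : G →* G).range.comap (powMonoidHom k) with hK
  have hfact : Fact p.Prime := ⟨hpp⟩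
  refine ⟨p, hpp, ?_⟩
  -- the quotient is infinite
  have hinf : Infinite (G ⧸ K) := by
    by_contra hcon
    rw [not_infinite_iff_finite] at hcon
    apply hkinf
    have hf2 : Finite ((powMonoidHom d : G →* G).range : Set G) := hdfin
    have : ((powMonoidHom k : G →* G).range : Set G) ⊆
        Set.range (fun q : (G ⧸ K) × ((powMonoidHom d : G →* G).range : Set G) =>
          (q.1.out) ^ k * (q.2 : G)) := by
      rintro _ ⟨g, rfl⟩
      have h1 : ((QuotientGroup.mk g : G ⧸ K).out)⁻¹ * g ∈ K := by
        rw [← QuotientGroup.eq]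
        exact Quotient.out_eq' (QuotientGroup.mk g : G ⧸ K)
      refine ⟨(QuotientGroup.mk g, ⟨_, h1⟩), ?_⟩
      simp only [powMonoidHom_apply]
      rw [mul_pow, inv_pow, mul_inv_cancel_left]
    exact (Set.finite_range _).subset this
  have htor : ∀ w : Additive (G ⧸ K), p • w = 0 := by
    intro w
    obtain ⟨g, hg⟩ := QuotientGroup.mk_surjective (Additive.toMul w)
    apply Additive.toMul.injective
    rw [toMul_nsmul, ← hg, ← QuotientGroup.mk_pow, toMul_zero]
    rw [QuotientGroup.eq_one_iff, hK, Subgroup.mem_comap, MonoidHom.mem_range]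
    exact ⟨g, by rw [powMonoidHom_apply, powMonoidHom_apply, ← pow_mul, hk]⟩
  let _ : Module (ZMod p) (Additive (G ⧸ K)) := AddCommGroup.zmodModule htor
  have : NeZero p := ⟨hpp.ne_zero⟩
  have hinf3 : Infinite (Additive (G ⧸ K)) := hinf
  obtain ⟨f, hf, t, ht⟩ := exists_coordN (ZMod p) (Additive (G ⧸ K))
  have ht2 : ∀ j, ∃ g : G, Additive.ofMul (QuotientGroup.mk g : G ⧸ K) = t j := fun j => by
    obtain ⟨g, hg⟩ := QuotientGroup.mk_surjective (Additive.toMul (t j))
    exact ⟨g, by rw [hg]; rfl⟩
  choose s hs using ht2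
  refine ⟨fun g => f (Additive.ofMul (QuotientGroup.mk g : G ⧸ K)), ?_, s, ?_⟩
  · intro g h
    simp only
    rw [QuotientGroup.mk_mul, ofMul_mul, hf]
  · intro j
    simp only
    rw [hs, ht]

end Grp

end Pool.Agent.NH61.OpenConv
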