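import Pool.Agent.NH61.OpenConv.Steps

/-!
# The multi-level induction and the final contradiction
-/

open Finset
open Pool.Agent.V1192.UOD

namespace Pool.Agent.NH61.OpenConv

noncomputable section

variable {p : ℕ} [Fact p.Prime] {N : ℕ → ℕ} {G : Type} [AddCommGroup G] [Fintype G]
variable {π : Bool → (k : ℕ) → G → V p (N k)} {z : Bool → G → ℂ} {n : ℕ}
  {ψ : Bool → (k : ℕ) → ℝ → V p (N k) → ℝ} {κ η : ℕ → ℝ} {τ δ ε : ℝ}

/-- The statement at level `k`. -/
def LL (π : Bool → (k : ℕ) → G → V p (N k)) (z : Bool → G → ℂ) (n : ℕ)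
    (ψ : Bool → (k : ℕ) → ℝ → V p (N k) → ℝ) (η : ℕ → ℝ) (τ : ℝ) (k : ℕ) : Prop :=
  ∃ c : Bool → (l : ℕ) → V p (N l), (∀ b, |sh η τ k c b| ≤ η k / (16 * p)) ∧ ∀ b,
    ‖XX π z n ψ b (st k c (fun b' => -sh η τ k c b' / η k + if b' = b then 0 else 1 / 16)
      (fun _ => 0))‖
    < ‖XX π z n ψ (!b) (st k c (fun b' => -sh η τ k c b' / η k + if b' = b then 0 else 1 / 16)
      (fun _ => 0))‖

theorem num1 {e S δ E q : ℝ} (he0 : 0 < e) (he1 : e ≤ 1) (hS : e / 16000 ≤ S)
    (hδ : δ ≤ (e / 1000) ^ 4 / 10 ^ 24) (hE : E ≤ 3 * (e ^ 8 * q))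
    (hq : q ≤ 1 / 10 ^ 60) : 512 * (δ + E) < e ^ 2 * S ^ 2 := by
  have h1 : (e / 16000) ^ 2 ≤ S ^ 2 := pow_le_pow_left₀ (by positivity) hS 2
  have h2 : e ^ 2 * (e / 16000) ^ 2 ≤ e ^ 2 * S ^ 2 := mul_le_mul_of_nonneg_left h1 (by positivity)
  have h3 : e ^ 8 * q ≤ e ^ 4 * (1 / 10 ^ 60) := by
    have h4 : e ^ 8 ≤ e ^ 4 := pow_le_pow_of_le_one he0.le he1 (by norm_num)
    calc e ^ 8 * q ≤ e ^ 8 * (1 / 10 ^ 60) := mul_le_mul_of_nonneg_left hq (by positivity)
      _ ≤ _ := mul_le_mul_of_nonneg_right h4 (by positivity)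
  have h5 : 0 < e ^ 4 := by positivity
  have h6 : e ^ 2 * (e / 16000) ^ 2 = e ^ 4 / 256000000 := by ring
  have h7 : (e / 1000) ^ 4 / 10 ^ 24 = e ^ 4 / 10 ^ 36 := by ring
  rw [h6] at h2
  rw [h7] at hδ
  norm_num at *
  nlinarith

theorem num2 {e r r' D q : ℝ} (he0 : 0 < e) (he1 : e ≤ 1) (hr : 0 ≤ r)
    (hr' : e * (e / 16000) / 16 ≤ r') (hrr : r * r' ≤ D)
    (hD : 512 * D < e ^ 2 * (e / 16000) ^ 2) (hq : q ≤ 1 / 10 ^ 60) :
    16004 * (e ^ 8 * q) < r' - r := by
  have h0 : 0 < e ^ 2 := by positivity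
  set a : ℝ := e ^ 2 / 256000 with ha
  have ha0 : 0 < a := by positivity
  have h1 : a ≤ r' := by
    rw [ha]; linarith [show e * (e / 16000) / 16 = e ^ 2 / 256000 by ring]
  have h2 : D < a ^ 2 / 2 := by
    have : e ^ 2 * (e / 16000) ^ 2 = 256 * a ^ 2 := by rw [ha]; ring
    rw [this] at hD
    linarith
  have h3 : r < a / 2 := by
    by_contra hcon
    push Not at hcon
    have : a / 2 * a ≤ r * r' := mul_le_mul hcon h1 ha0.le hr
    nlinarith
  have h4 : e ^ 8 * q ≤ e ^ 2 * (1 / 10 ^ 60) := by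
    have h4 : e ^ 8 ≤ e ^ 2 := pow_le_pow_of_le_one he0.le he1 (by norm_num)
    calc e ^ 8 * q ≤ e ^ 8 * (1 / 10 ^ 60) := mul_le_mul_of_nonneg_left hq (by positivity)
      _ ≤ _ := mul_le_mul_of_nonneg_right h4 (by positivity)
  have h5 : a / 2 < r' - r := by linarith
  rw [ha] at h5
  norm_num at h4 ⊢
  nlinarith

theorem OK_zero : OK (fun _ => 0) := fun _ => by norm_num

theorem AV_zero (n : ℕ) (η : ℕ → ℝ) (τ : ℝ) (k : ℕ) (c : Bool → (l : ℕ) → V p (N l))
    (x : Bool → ℝ) (b : Bool) :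
    AV n η τ k c x (fun _ => 0) b = sh η τ k c b + η k * x b := by
  unfold AV
  simp

theorem Sys.base (H : Sys π z n ψ κ η τ δ ε) (hn : 0 < n)
    (hη : ∀ k, η k = (1 / 1000 : ℝ) ^ k) (hτ : |τ| ≤ 1 / (16 * p)) (hε : ε ≤ 1 / 64) :
    LL π z n ψ η τ 0 := by
  have hp2 : (2 : ℝ) ≤ p := by exact_mod_cast (Fact.out : p.Prime).two_le
  have hη0 : η 0 = 1 := by rw [hη, pow_zero]
  have hsh : ∀ (c : Bool → (l : ℕ) → V p (N l)) b, sh η τ 0 c b = τ := by
    intro c b; simp [sh]
  have hτ32 : |τ| ≤ 1 / 32 := by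
    refine hτ.trans ?_
    rw [div_le_div_iff₀ (by positivity) (by norm_num)]
    linarith
  refine ⟨fun _ _ => 0, fun b => by rw [hsh, hη0]; exact hτ, fun b => ?_⟩
  simp only [hsh, hη0, div_one]
  set x : Bool → ℝ := fun b' => -τ + if b' = b then 0 else 1 / 16 with hx
  have hxOK : OK x := by
    intro b'
    rw [hx]
    simp only
    have := abs_le.1 hτ32
    rw [abs_le]
    split_ifs <;> constructor <;> linarith
  have h1 : ∀ b', ‖XX π z n ψ b' (st 0 (fun _ _ => 0) x (fun _ => 0))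
      - ((τ + x b' : ℝ) : ℂ)‖ ≤ ε := by
    intro b'
    have h2 := H.hclose (fun b l => vl ψ b l (st 0 (fun _ _ => 0) x (fun _ => 0) b l))
      (fun b l hl => H.vl_zero hxOK OK_zero 0 _ b l hl)
      (fun b l v hl => H.vl_norm hxOK OK_zero 0 _ b l hl v) b'
    rw [H.sum_avg hxOK OK_zero hn _ b', AV_zero, hsh, hη0, one_mul] at h2
    exact h2
  have hxb : τ + x b = 0 := by rw [hx]; simp
  have hxnb : τ + x (!b) = 1 / 16 := by
    rw [hx]
    have : (!b) ≠ b := by cases b <;> simp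
    simp only [this, if_false]
    ring
  have h2 := h1 b
  have h3 := h1 (!b)
  rw [hxb, Complex.ofReal_zero, sub_zero] at h2
  rw [hxnb] at h3
  have h4 := norm_sub_norm_le ((1 / 16 : ℝ) : ℂ)
    (XX π z n ψ (!b) (st 0 (fun _ _ => 0) x (fun _ => 0)))
  rw [norm_sub_rev] at h3
  rw [Complex.norm_real, Real.norm_of_nonneg (by norm_num)] at h4
  linarith

/-- The step of the induction. -/
theorem Sys.step (H : Sys π z n ψ κ η τ δ ε)
    (hη : ∀ k, η k = (1 / 1000 : ℝ) ^ k) {q : ℝ} (hq0 : 0 ≤ q) (hq : q * p ≤ 1 / 10 ^ 60)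
    (hκ : ∀ k, κ k = ((1 / 1000 : ℝ) ^ k) ^ 8 * q) (hδ0 : 0 ≤ δ)
    (hδ : δ ≤ ((1 / 1000 : ℝ) ^ (n - 1)) ^ 4 / 10 ^ 24) {k : ℕ} (hk : k + 1 < n)
    (L : LL π z n ψ η τ k) : LL π z n ψ η τ (k + 1) := by
  have hp2 : (2 : ℝ) ≤ p := by exact_mod_cast (Fact.out : p.Prime).two_le
  obtain ⟨c, hc, hX⟩ := L
  set e : ℝ := η k with he
  have he0 : 0 < e := by rw [he, hη]; positivity
  have he1 : e ≤ 1 := by rw [he, hη]; exact pow_le_one₀ (by norm_num) (by norm_num)
  have hek : (1 / 1000 : ℝ) ^ k = e := by rw [he, hη]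
  have he' : η (k + 1) = e / 1000 := by rw [hη, pow_succ, hek]; ring
  have hkn : k < n := by omega
  have hq1 : q ≤ 1 / 10 ^ 60 := by nlinarith
  have hκk : κ k = e ^ 8 * q := by rw [hκ, hek]
  have hEr : Er κ n k ≤ 3 * (e ^ 8 * q) := by rw [← hκk]; exact Er_le hq0 hκ n k
  have hδe : δ ≤ (e / 1000) ^ 4 / 10 ^ 24 := by
    refine hδ.trans (div_le_div_of_nonneg_right (pow_le_pow_left₀ (by positivity) ?_ 4)
      (by positivity))
    rw [← he', hη]
    exact pow_le_pow_of_le_one (by norm_num) (by norm_num) (by omega)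
  have hshe : ∀ b, |(-sh η τ k c b / e)| ≤ 1 / (16 * p) := by
    intro b
    rw [abs_div, abs_neg, abs_of_pos he0, div_le_iff₀ he0]
    refine (hc b).trans (le_of_eq ?_)
    ring
  have h16p : 1 / (16 * (p : ℝ)) ≤ 1 / 32 := by
    rw [div_le_div_iff₀ (by positivity) (by norm_num)]
    linarith
  have hsh32 : ∀ b, |(-sh η τ k c b / e)| ≤ 1 / 32 := fun b => (hshe b).trans h16p
  -- the key gap
  have key : ∀ b, 16004 * (e ^ 8 * q)
      < ‖XX π z n ψ (!b) (st k c (fun b' => -sh η τ k c b' / e)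
          (fun b' => if b' = b then 0 else 1 / 16))‖
        - ‖XX π z n ψ b (st k c (fun b' => -sh η τ k c b' / e)
          (fun b' => if b' = b then 0 else 1 / 16))‖ := by
    intro b
    set xt : ℝ → Bool → ℝ := fun t b' => -sh η τ k c b' / e + if b' = b then 0 else (1 - t) / 16
      with hxt
    set yt : ℝ → Bool → ℝ := fun t b' => if b' = b then 0 else t / 16 with hyt
    have hxOK : ∀ t ∈ Set.Icc (0 : ℝ) 1, OK (xt t) := by
      intro t ht b'
      have := abs_le.1 (hsh32 b')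
      rw [hxt]
      simp only
      rw [abs_le]
      split_ifs <;> constructor <;> linarith [ht.1, ht.2]
    have hyOK : ∀ t ∈ Set.Icc (0 : ℝ) 1, OK (yt t) := by
      intro t ht b'
      rw [hyt]
      simp only
      rw [abs_le]
      split_ifs <;> constructor <;> linarith [ht.1, ht.2]
    have hbb : (!b) ≠ b := by cases b <;> simp
    have hAb : ∀ t, AV n η τ k c (xt t) (yt t) b = 0 := by
      intro t
      unfold AV
      rw [hxt, hyt]
      simp only [if_true, add_zero, mul_zero, ite_self]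
      rw [← he]
      field_simp
      ring
    have hAnb : ∀ t, AV n η τ k c (xt t) (yt t) (!b)
        = e * (1 - t) / 16 + e / 1000 * t / 16 := by
      intro t
      unfold AV
      rw [hxt, hyt]
      simp only [hbb, if_false, hk, if_true]
      rw [← he, he']
      field_simp
      ring
    -- consequences of a small difference
    have hgap : ∀ t ∈ Set.Icc (0 : ℝ) 1, ‖XX π z n ψ b (st k c (xt t) (yt t))‖
        ≤ ‖XX π z n ψ (!b) (st k c (xt t) (yt t))‖ →
        e * (e * (1 - t) / 16 + e / 1000 * t / 16) / 16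
          ≤ ‖XX π z n ψ (!b) (st k c (xt t) (yt t))‖ ∧
        ‖XX π z n ψ b (st k c (xt t) (yt t))‖ * ‖XX π z n ψ (!b) (st k c (xt t) (yt t))‖
          ≤ δ + Er κ n k := by
      intro t ht hle
      have hS1 : e / 16000 ≤ e * (1 - t) / 16 + e / 1000 * t / 16 := by
        nlinarith [ht.1, ht.2, mul_nonneg he0.le (sub_nonneg.2 ht.2)]
      refine H.gap0 (hxOK t ht) (hyOK t ht) hkn c b he.symm he0 he1 ?_ (hAb t) (hAnb t)
        (lt_of_lt_of_le (by positivity) hS1) ?_ hδ0 le_rfl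
        (num1 he0 he1 hS1 hδe hEr hq1) hle
      · rw [hxt]
        simp only [if_true, add_zero]
        exact (hsh32 b).trans (by norm_num)
      · nlinarith [ht.1, ht.2, mul_nonneg he0.le (sub_nonneg.2 ht.2), mul_nonneg he0.le ht.1]
    set f : ℝ → ℝ := fun t => ‖XX π z n ψ b (st k c (xt t) (yt t))‖
      - ‖XX π z n ψ (!b) (st k c (xt t) (yt t))‖ with hf
    have hlip : ∀ b', ∀ t ∈ Set.Icc (0 : ℝ) 1, ∀ t' ∈ Set.Icc (0 : ℝ) 1,
        |‖XX π z n ψ b' (st k c (xt t) (yt t))‖ - ‖XX π z n ψ b' (st k c (xt t') (yt t'))‖|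
        ≤ 1 / 2 * |t - t'| := by
      intro b' t ht t' ht'
      refine (abs_norm_sub_norm_le _ _).trans ((H.lip (hxOK t ht) (hyOK t ht) (hxOK t' ht')
        (hyOK t' ht') (k := k) c b').trans (le_of_eq ?_))
      rw [hxt, hyt]
      simp only
      have e1 : |(1 - t) / 16 - (1 - t') / 16| = |t - t'| / 16 := by
        have e0 : (1 - t) / 16 - (1 - t') / 16 = -((t - t') / 16) := by ring
        rw [e0, abs_neg, abs_div]
        norm_num
      have e2 : |t / 16 - t' / 16| = |t - t'| / 16 := by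
        rw [← sub_div, abs_div]
        norm_num
      cases b
      · simp only [if_true, reduceCtorEq, if_false, sub_self, abs_zero, zero_add,
          add_sub_add_left_eq_sub]
        rw [e1, e2]
        ring
      · simp only [if_true, reduceCtorEq, if_false, sub_self, abs_zero, add_zero,
          add_sub_add_left_eq_sub]
        rw [e1, e2]
        ring
    have hcont : ContinuousOn f (Set.Icc 0 1) := by
      have : LipschitzOnWith 1 f (Set.Icc 0 1) := by
        refine LipschitzOnWith.of_dist_le_mul (fun t ht t' ht' => ?_)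
        rw [Real.dist_eq, Real.dist_eq, NNReal.coe_one, one_mul, hf]
        have h1 := abs_le.1 (hlip b t ht t' ht')
        have h2 := abs_le.1 (hlip (!b) t ht t' ht')
        rw [abs_le]
        constructor <;> linarith [h1.1, h1.2, h2.1, h2.2]
      exact this.continuousOn
    have hf0 : f 0 < 0 := by
      have h1 := hX b
      have h2 : xt 0 = fun b' => -sh η τ k c b' / e + if b' = b then 0 else 1 / 16 := by
        rw [hxt]; simp
      have h3 : yt 0 = fun _ => 0 := by rw [hyt]; simp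
      rw [hf]
      simp only
      rw [h2, h3]
      linarith
    have hf1 : f 1 < 0 := by
      by_contra hcon
      push Not at hcon
      obtain ⟨t, ht, hft⟩ := intermediate_value_Icc (zero_le_one) hcont ⟨hf0.le, hcon⟩
      have heq : ‖XX π z n ψ b (st k c (xt t) (yt t))‖
          = ‖XX π z n ψ (!b) (st k c (xt t) (yt t))‖ := by
        rw [hf] at hft; simp only at hft; linarith
      obtain ⟨h1, h2⟩ := hgap t ht heq.le
      rw [heq] at h2
      have hS1 : e / 16000 ≤ e * (1 - t) / 16 + e / 1000 * t / 16 := by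
        nlinarith [ht.1, ht.2, mul_nonneg he0.le (sub_nonneg.2 ht.2)]
      have h3 := num1 he0 he1 hS1 hδe hEr hq1
      set S := e * (1 - t) / 16 + e / 1000 * t / 16 with hS
      have hS0 : 0 < S := lt_of_lt_of_le (by positivity) hS1
      have h4 : e * S / 16 * (e * S / 16) ≤ δ + Er κ n k :=
        (mul_le_mul h1 h1 (by positivity) (norm_nonneg _)).trans h2
      have h5 : 0 < e ^ 2 * S ^ 2 := by positivity
      nlinarith
    have h1t : (1 : ℝ) ∈ Set.Icc (0 : ℝ) 1 := ⟨zero_le_one, le_rfl⟩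
    obtain ⟨h1, h2⟩ := hgap 1 h1t (by
      have := hf1; rw [hf] at this; simp only at this; linarith)
    have hx1 : xt 1 = fun b' => -sh η τ k c b' / e := by rw [hxt]; simp
    have hy1 : yt 1 = fun b' => if b' = b then 0 else 1 / 16 := by rw [hyt]
    rw [hx1, hy1] at h1 h2
    have h3 : e * (1 - 1) / 16 + e / 1000 * 1 / 16 = e / 16000 := by ring
    rw [h3] at h1
    exact num2 he0 he1 (norm_nonneg _) h1 h2 (num1 he0 he1 le_rfl hδe hEr hq1) hq1
  -- selection
  have hyOK : ∀ r : Bool, OK (fun b' => if b' = r then 0 else 1 / 16) := by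
    intro r b'
    simp only
    split_ifs <;> norm_num
  obtain ⟨c', hc'1, hc'2, hc'3⟩ := H.select hkn c (fun b' => -sh η τ k c b' / e) hshe
    (fun r b' => if b' = r then 0 else 1 / 16) hyOK
  have hκ0 : 0 ≤ κ k := by rw [hκk]; positivity
  have hsh' : ∀ b, |sh η τ (k + 1) c' b| ≤ e * κ k := by
    intro b
    have h1 : sh η τ (k + 1) c' b
        = e * ((avg (chr (c' b k))).re - -sh η τ k c b / e) := by
      unfold sh
      rw [sum_range_succ]
      have h2 : ∑ l ∈ range k, η l * (avg (chr (c' b l))).re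
          = ∑ l ∈ range k, η l * (avg (chr (c b l))).re :=
        sum_congr rfl (fun l hl => by rw [hc'1 b l (mem_range.1 hl)])
      rw [h2, ← he]
      field_simp
      ring
    rw [h1, abs_mul, abs_of_pos he0]
    exact mul_le_mul_of_nonneg_left (hc'2 b) he0.le
  have hκp : κ k * p ≤ 1 / 10 ^ 60 := by
    rw [hκk, mul_assoc]
    calc e ^ 8 * (q * p) ≤ 1 * (q * p) :=
          mul_le_mul_of_nonneg_right (pow_le_one₀ he0.le he1) (by positivity)
      _ ≤ _ := by rw [one_mul]; exact hq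
  refine ⟨c', fun b => ?_, fun b => ?_⟩
  · refine (hsh' b).trans ?_
    rw [he', le_div_iff₀ (by positivity)]
    norm_num at hκp
    nlinarith
  · -- comparison of the states
    have hxx : ∀ b', |(-sh η τ (k + 1) c' b' / η (k + 1))| ≤ 1000 * κ k := by
      intro b'
      rw [abs_div, abs_neg, he', abs_of_pos (by positivity : (0 : ℝ) < e / 1000),
        div_le_iff₀ (by positivity : (0 : ℝ) < e / 1000)]
      have := hsh' b'
      linarith
    have hκ1000 : 1000 * κ k ≤ 1 / 32 := by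
      norm_num at hκp
      nlinarith
    set xn : Bool → ℝ := fun b' => -sh η τ (k + 1) c' b' / η (k + 1)
      + if b' = b then 0 else 1 / 16 with hxn
    have hxnOK : OK xn := by
      intro b'
      have := abs_le.1 ((hxx b').trans hκ1000)
      rw [hxn]
      simp only
      rw [abs_le]
      split_ifs <;> constructor <;> linarith
    have hcmp : ∀ b', |‖XX π z n ψ b' (st (k + 1) c' xn (fun _ => 0))‖
        - ‖XX π z n ψ b' (st k c (fun b' => -sh η τ k c b' / e)
          (fun b' => if b' = b then 0 else 1 / 16))‖| ≤ 8002 * κ k := by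
      intro b'
      have h1 := H.lip hxnOK OK_zero (hyOK b) OK_zero (k := k + 1) c' b'
      have h2 := hc'3 b' b
      have h3 : |xn false - (if false = b then 0 else 1 / 16)|
          = |(-sh η τ (k + 1) c' false / η (k + 1))| := by
        rw [hxn]; simp only [add_sub_cancel_right]
      have h4 : |xn true - (if true = b then 0 else 1 / 16)|
          = |(-sh η τ (k + 1) c' true / η (k + 1))| := by
        rw [hxn]; simp only [add_sub_cancel_right]
      rw [h3, h4, sub_self, abs_zero, add_zero, add_zero] at h1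
      have h5 := hxx false
      have h6 := hxx true
      have h7 := norm_add_le
        (XX π z n ψ b' (st (k + 1) c' xn (fun _ => 0))
          - XX π z n ψ b' (st (k + 1) c' (fun b' => if b' = b then 0 else 1 / 16) (fun _ => 0)))
        (XX π z n ψ b' (st (k + 1) c' (fun b' => if b' = b then 0 else 1 / 16) (fun _ => 0))
          - XX π z n ψ b' (st k c (fun b' => -sh η τ k c b' / e)
          (fun b' => if b' = b then 0 else 1 / 16)))
      rw [sub_add_sub_cancel] at h7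
      refine (abs_norm_sub_norm_le _ _).trans (h7.trans ?_)
      linarith
    have h1 := abs_le.1 (hcmp b)
    have h2 := abs_le.1 (hcmp (!b))
    have h3 := key b
    rw [← hκk] at h3
    linarith [h1.2, h2.1]

theorem num3 {e δ E q t r M : ℝ} (he0 : 0 < e) (he1 : e ≤ 1) (hδ : δ = e ^ 4 / 10 ^ 24)
    (hE : E ≤ 3 * (e ^ 8 * q)) (hq0 : 0 ≤ q) (hq : q ≤ 1 / 10 ^ 60) (ht : t ^ 2 ≤ 1) (hr : 0 ≤ r)
    (hrr : r * r ≤ δ * t ^ 2 + E) (hM0 : 0 ≤ M)
    (hM : t ^ 2 * e ^ 2 / 1024 + δ * (1 - t ^ 2) ≤ M ^ 2)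
    (hgap : e * (e * M / 64) * M - δ * t ^ 2 - E ≤ (r + 4 * (e * M / 64)) * (r + 4 * (e * M / 64))) :
    False := by
  have h1 : (r + 4 * (e * M / 64)) * (r + 4 * (e * M / 64))
      ≤ 2 * (r * r) + 2 * (e * M / 16) ^ 2 := by nlinarith [sq_nonneg (r - e * M / 16)]
  have h2 : e ^ 2 * M ^ 2 ≤ 384 * (δ * t ^ 2 + E) := by nlinarith
  have h3 : e ^ 2 * (t ^ 2 * e ^ 2 / 1024 + δ * (1 - t ^ 2)) ≤ e ^ 2 * M ^ 2 :=
    mul_le_mul_of_nonneg_left hM (by positivity)
  have he4 : 0 < e ^ 4 := by positivity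
  have he6 : e ^ 6 ≤ e ^ 4 := pow_le_pow_of_le_one he0.le he1 (by norm_num)
  have he8 : e ^ 8 ≤ e ^ 6 := pow_le_pow_of_le_one he0.le he1 (by norm_num)
  have he60 : 0 < e ^ 6 := by positivity
  have ht0 : 0 ≤ t ^ 2 := sq_nonneg t
  have h4 : E ≤ 3 * (e ^ 6 / 10 ^ 60) := by
    have h5 : e ^ 8 * q ≤ e ^ 6 * (1 / 10 ^ 60) :=
      mul_le_mul he8 hq hq0 (by positivity)
    linarith
  have h5 : e ^ 2 * (t ^ 2 * e ^ 2 / 1024 + δ * (1 - t ^ 2))
      = t ^ 2 * (e ^ 4 / 1024 - e ^ 6 / 10 ^ 24) + e ^ 6 / 10 ^ 24 := by rw [hδ]; ring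
  have h6 : e ^ 6 / 10 ^ 24 ≤ 384 * E := by
    have h7 : 0 ≤ t ^ 2 * (e ^ 4 / 1024 - e ^ 6 / 10 ^ 24 - 384 * (e ^ 4 / 10 ^ 24)) := by
      apply mul_nonneg ht0
      norm_num
      nlinarith
    rw [hδ] at h2
    rw [h5] at h3
    linarith
  norm_num at h4 h6
  nlinarith

/-- The final contradiction. -/
theorem Sys.final (H : Sys π z n ψ κ η τ δ ε) (hn : 0 < n)
    (hη : ∀ k, η k = (1 / 1000 : ℝ) ^ k) {q : ℝ} (hq0 : 0 ≤ q) (hq : q * p ≤ 1 / 10 ^ 60)
    (hκ : ∀ k, κ k = ((1 / 1000 : ℝ) ^ k) ^ 8 * q)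
    (hδ : δ = ((1 / 1000 : ℝ) ^ (n - 1)) ^ 4 / 10 ^ 24)
    (L : LL π z n ψ η τ (n - 1)) : False := by
  have hp2 : (2 : ℝ) ≤ p := by exact_mod_cast (Fact.out : p.Prime).two_le
  obtain ⟨c, hc, hX⟩ := L
  set k := n - 1 with hk
  have hkn : k < n := by omega
  set e : ℝ := η k with he
  have he0 : 0 < e := by rw [he, hη]; positivity
  have he1 : e ≤ 1 := by rw [he, hη]; exact pow_le_one₀ (by norm_num) (by norm_num)
  have hek : (1 / 1000 : ℝ) ^ k = e := by rw [he, hη]
  have hq1 : q ≤ 1 / 10 ^ 60 := by nlinarith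
  have hκk : κ k = e ^ 8 * q := by rw [hκ, hek]
  have hEr : Er κ n k ≤ 3 * (e ^ 8 * q) := by rw [← hκk]; exact Er_le hq0 hκ n k
  rw [hek] at hδ
  have hδ0 : 0 < δ := by rw [hδ]; positivity
  have h16p : 1 / (16 * (p : ℝ)) ≤ 1 / 32 := by
    rw [div_le_div_iff₀ (by positivity) (by norm_num)]
    linarith
  have hsh32 : ∀ b, |(-sh η τ k c b / e)| ≤ 1 / 32 := by
    intro b
    rw [abs_div, abs_neg, abs_of_pos he0, div_le_iff₀ he0]
    refine (hc b).trans ?_
    have := mul_le_mul_of_nonneg_right h16p he0.le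
    calc e / (16 * p) = 1 / (16 * p) * e := by ring
      _ ≤ _ := this
  -- the curve
  set Δ : ℝ → ℝ := fun t => (t * e / 16) ^ 2 + 4 * δ * (1 - t ^ 2) with hΔ
  set sg : Bool → ℝ := fun b => if b then -1 else 1 with hsg
  set g : ℝ → Bool → ℝ := fun t b => (sg b * (t * e / 16) + Real.sqrt (Δ t)) / 2 with hg
  set xt : ℝ → Bool → ℝ := fun t b => -sh η τ k c b / e + g t b / e with hxt
  have hIcc : ∀ t ∈ Set.Icc (-1 : ℝ) 1, t ^ 2 ≤ 1 := by
    intro t ht
    rw [sq_le_one_iff_abs_le_one, abs_le]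
    exact ⟨ht.1, ht.2⟩
  have hΔ0 : ∀ t ∈ Set.Icc (-1 : ℝ) 1, 0 ≤ Δ t := by
    intro t ht
    have := hIcc t ht
    rw [hΔ]
    have h1 : 0 ≤ 1 - t ^ 2 := by linarith
    positivity
  have hsgabs : ∀ b, |sg b| = 1 := by intro b; rw [hsg]; cases b <;> simp
  have hsqrt : ∀ t ∈ Set.Icc (-1 : ℝ) 1, Real.sqrt (Δ t) ≤ e / 15 := by
    intro t ht
    have h1 := hIcc t ht
    apply Real.sqrt_le_iff.2
    refine ⟨by positivity, ?_⟩
    rw [hΔ, hδ]
    simp only
    have he4 : e ^ 4 ≤ e ^ 2 := pow_le_pow_of_le_one he0.le he1 (by norm_num)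
    have he2 : 0 < e ^ 2 := by positivity
    have h2 : (t * e / 16) ^ 2 ≤ e ^ 2 / 256 := by
      have : (t * e / 16) ^ 2 = t ^ 2 * (e ^ 2 / 256) := by ring
      rw [this]
      nlinarith
    have h3 : 4 * (e ^ 4 / 10 ^ 24) * (1 - t ^ 2) ≤ 4 * (e ^ 4 / 10 ^ 24) * 1 :=
      mul_le_mul_of_nonneg_left (by nlinarith [sq_nonneg t]) (by positivity)
    norm_num at h3 ⊢
    nlinarith
  have hsqrt2 : ∀ t ∈ Set.Icc (-1 : ℝ) 1, |t * e / 16| ≤ Real.sqrt (Δ t) := by
    intro t ht
    have h1 := hIcc t ht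
    apply Real.abs_le_sqrt
    rw [hΔ]
    simp only
    have : 0 ≤ 4 * δ * (1 - t ^ 2) := mul_nonneg (by positivity) (by linarith)
    linarith
  have hg0 : ∀ t ∈ Set.Icc (-1 : ℝ) 1, ∀ b, 0 ≤ g t b := by
    intro t ht b
    have h1 := hsqrt2 t ht
    have h2 := neg_abs_le (sg b * (t * e / 16))
    rw [abs_mul, hsgabs, one_mul] at h2
    rw [hg]
    simp only
    linarith
  have hg1 : ∀ t ∈ Set.Icc (-1 : ℝ) 1, ∀ b, g t b ≤ e / 15 := by
    intro t ht b
    have h1 := hsqrt t ht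
    have h2 := le_abs_self (sg b * (t * e / 16))
    rw [abs_mul, hsgabs, one_mul] at h2
    have h3 : |t * e / 16| ≤ e / 16 := by
      have : |t| ≤ 1 := abs_le.2 ⟨ht.1, ht.2⟩
      rw [abs_div, abs_mul, abs_of_pos he0]
      norm_num
      nlinarith
    rw [hg]
    simp only
    linarith
  have hgm : ∀ t ∈ Set.Icc (-1 : ℝ) 1, ∀ b, |g t b / e| ≤ 1 / 15 := by
    intro t ht b
    rw [abs_div, abs_of_nonneg (hg0 t ht b), abs_of_pos he0, div_le_iff₀ he0]
    linarith [hg1 t ht b]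
  have hxOK : ∀ t ∈ Set.Icc (-1 : ℝ) 1, OK (xt t) := by
    intro t ht b
    have h1 := hgm t ht b
    have h2 := hsh32 b
    rw [hxt]
    refine (abs_add_le _ _).trans ?_
    linarith
  have hAV : ∀ t b, AV n η τ k c (xt t) (fun _ => 0) b = g t b := by
    intro t b
    rw [AV_zero, hxt]
    simp only
    rw [← he]
    field_simp
    ring
  have hgg : ∀ t ∈ Set.Icc (-1 : ℝ) 1, g t false * g t true = δ * (1 - t ^ 2) := by
    intro t ht
    have h1 := Real.mul_self_sqrt (hΔ0 t ht)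
    have h2 : g t false * g t true
        = (Real.sqrt (Δ t) * Real.sqrt (Δ t) - (t * e / 16) ^ 2) / 4 := by
      rw [hg, hsg]
      simp only [Bool.false_eq_true, if_false, if_true]
      ring
    rw [h2, h1, hΔ]
    simp only
    ring
  have hxc : ∀ b, Continuous (fun t => xt t b) := by
    intro b
    have h1 : (fun t => xt t b) = fun t => -sh η τ k c b / e
        + ((sg b * (t * e / 16) + Real.sqrt ((t * e / 16) ^ 2 + 4 * δ * (1 - t ^ 2))) / 2) / e := rfl
    rw [h1]
    fun_prop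
  have hcX : ∀ b', ContinuousOn (fun t => ‖XX π z n ψ b' (st k c (xt t) (fun _ => 0))‖)
      (Set.Icc (-1) 1) := by
    intro b' t ht
    rw [ContinuousWithinAt, tendsto_iff_dist_tendsto_zero]
    refine squeeze_zero' (g := fun t' => 4 * (|xt t' false - xt t false| + |xt t' true - xt t true|))
      (Filter.Eventually.of_forall (fun _ => dist_nonneg)) ?_ ?_
    · filter_upwards [self_mem_nhdsWithin] with t' ht'
      rw [Real.dist_eq]
      refine (abs_norm_sub_norm_le _ _).trans ?_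
      have := H.lip (hxOK t' ht') OK_zero (hxOK t ht) OK_zero (k := k) c b'
      rwa [sub_self, abs_zero, add_zero, add_zero] at this
    · have h1 : Continuous (fun t' => 4 * (|xt t' false - xt t false| + |xt t' true - xt t true|)) := by
        have h2 := hxc false
        have h3 := hxc true
        fun_prop
      have h2 := h1.tendsto t
      simp only [sub_self, abs_zero, add_zero, mul_zero] at h2
      exact h2.mono_left nhdsWithin_le_nhds
  set f : ℝ → ℝ := fun t => ‖XX π z n ψ false (st k c (xt t) (fun _ => 0))‖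
      - ‖XX π z n ψ true (st k c (xt t) (fun _ => 0))‖ with hf
  have hcont : ContinuousOn f (Set.Icc (-1) 1) := (hcX false).sub (hcX true)
  have hfm : f (-1) < 0 := by
    have h1 := hX false
    have h2 : xt (-1) = fun b' => -sh η τ k c b' / e + if b' = false then 0 else 1 / 16 := by
      funext b'
      rw [hxt, hg, hsg, hΔ]
      simp only
      have h3 : Real.sqrt ((-1 * e / 16) ^ 2 + 4 * δ * (1 - (-1) ^ 2)) = e / 16 := by
        rw [show (-1 * e / 16) ^ 2 + 4 * δ * (1 - (-1) ^ 2) = (e / 16) ^ 2 by ring]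
        exact Real.sqrt_sq (by positivity)
      rw [h3]
      cases b'
      · simp
        left
        ring
      · simp
        field_simp
        norm_num
    rw [← h2] at h1
    rw [hf]
    simp only
    exact sub_neg.2 h1
  have hfp : 0 < f 1 := by
    have h1 := hX true
    have h2 : xt 1 = fun b' => -sh η τ k c b' / e + if b' = true then 0 else 1 / 16 := by
      funext b'
      rw [hxt, hg, hsg, hΔ]
      simp only
      have h3 : Real.sqrt ((1 * e / 16) ^ 2 + 4 * δ * (1 - 1 ^ 2)) = e / 16 := by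
        rw [show (1 * e / 16) ^ 2 + 4 * δ * (1 - 1 ^ 2) = (e / 16) ^ 2 by ring]
        exact Real.sqrt_sq (by positivity)
      rw [h3]
      cases b'
      · simp
        field_simp
      · simp
    rw [← h2] at h1
    rw [hf]
    simp only
    exact sub_pos.2 h1
  obtain ⟨t, ht, hft⟩ := intermediate_value_Icc (by norm_num : (-1 : ℝ) ≤ 1) hcont
    ⟨hfm.le, hfp.le⟩
  have heq : ‖XX π z n ψ false (st k c (xt t) (fun _ => 0))‖
      = ‖XX π z n ψ true (st k c (xt t) (fun _ => 0))‖ := by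
    rw [hf] at hft; simp only at hft; linarith
  have ht1 := hIcc t ht
  -- the larger symbol
  obtain ⟨b, hb⟩ : ∃ b : Bool, sg (!b) * (t * e / 16) = |t * e / 16| := by
    rcases le_total 0 t with h | h
    · refine ⟨true, ?_⟩
      rw [hsg, abs_of_nonneg (by positivity)]
      simp
    · refine ⟨false, ?_⟩
      rw [hsg, abs_of_nonpos (by nlinarith)]
      simp
  have hbe : ∀ b', ‖XX π z n ψ b' (st k c (xt t) (fun _ => 0))‖
      = ‖XX π z n ψ false (st k c (xt t) (fun _ => 0))‖ := by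
    intro b'
    cases b'
    · rfl
    · exact heq.symm
  have hprod : g t b * g t (!b) = δ * (1 - t ^ 2) := by
    cases b
    · exact hgg t ht
    · rw [Bool.not_true, mul_comm]; exact hgg t ht
  have habs : |g t b * g t (!b) - δ| = δ * t ^ 2 := by
    rw [hprod, show δ * (1 - t ^ 2) - δ = -(δ * t ^ 2) by ring, abs_neg,
      abs_of_nonneg (by positivity)]
  have h1 := H.prod_le (hxOK t ht) OK_zero hkn c b
  rw [hAV, hAV, habs, hbe b, hbe (!b)] at h1
  have hM0 := hg0 t ht (!b)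
  have hM1 := hg1 t ht (!b)
  have h2 := H.gap (hxOK t ht) OK_zero hkn c b (h := e * g t (!b) / 64) (by positivity) (by
    have h3 := abs_add_le (-sh η τ k c b / e + g t b / e) (e * g t (!b) / 64)
    have h4 := abs_add_le (-sh η τ k c b / e) (g t b / e)
    have h5 := hgm t ht b
    have h6 := hsh32 b
    have h7 : |e * g t (!b) / 64| ≤ 1 / 960 := by
      rw [abs_of_nonneg (by positivity)]
      have : e * g t (!b) ≤ 1 * (1 / 15) := mul_le_mul he1 (by linarith) hM0 zero_le_one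
      linarith
    change |(-sh η τ k c b / e + g t b / e) + e * g t (!b) / 64| ≤ 1 / 8
    linarith)
  rw [hAV, hAV, habs, hbe b, hbe (!b), ← he] at h2
  refine num3 (t := t) (M := g t (!b)) he0 he1 hδ hEr hq0 hq1 ht1 (norm_nonneg _) h1 hM0 ?_ h2
  have h3 : g t (!b) = (|t * e / 16| + Real.sqrt (Δ t)) / 2 := by
    rw [← hb]
  have h4 : Real.sqrt (Δ t) / 2 ≤ g t (!b) := by
    rw [h3]; linarith [abs_nonneg (t * e / 16)]
  have h5 := pow_le_pow_left₀ (by positivity) h4 2
  refine le_trans (le_of_eq ?_) h5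
  rw [div_pow, Real.sq_sqrt (hΔ0 t ht), hΔ]
  simp only
  ring

/-- Systems with the given parameters do not exist. -/
theorem Sys.contra (H : Sys π z n ψ κ η τ δ ε) (hn : 0 < n)
    (hη : ∀ k, η k = (1 / 1000 : ℝ) ^ k) {q : ℝ} (hq0 : 0 ≤ q) (hq : q * p ≤ 1 / 10 ^ 60)
    (hκ : ∀ k, κ k = ((1 / 1000 : ℝ) ^ k) ^ 8 * q)
    (hτ : |τ| ≤ 1 / (16 * p)) (hε : ε ≤ 1 / 64)
    (hδ : δ = ((1 / 1000 : ℝ) ^ (n - 1)) ^ 4 / 10 ^ 24) : False := by
  have h : ∀ k, k < n → LL π z n ψ η τ k := by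
    intro k
    induction k with
    | zero => intro _; exact H.base hn hη hτ hε
    | succ k ih =>
      intro hk
      exact H.step hη hq0 hq hκ (by rw [hδ]; positivity) hδ.le hk (ih (by omega))
  exact H.final hn hη hq0 hq hκ hδ (h (n - 1) (by omega))

end

end Pool.Agent.NH61.OpenConv
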