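import Pool.Agent.NH61.OpenConv.Block

/-!
# Systems of almost multiplicative functionals and the multi-level induction
-/

open Finset
open Pool.Agent.V1192.UOD

namespace Pool.Agent.NH61.OpenConv

noncomputable section

theorem norm_prod_sub_le {ι : Type} (I : Finset ι) (a b : ι → ℂ)
    (ha : ∀ i ∈ I, ‖a i‖ ≤ 1) (hb : ∀ i ∈ I, ‖b i‖ ≤ 1) :
    ‖∏ i ∈ I, a i - ∏ i ∈ I, b i‖ ≤ ∑ i ∈ I, ‖a i - b i‖ := by
  classical
  induction I using Finset.induction_on with
  | empty => simp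
  | insert j I hj ih =>
    rw [prod_insert hj, prod_insert hj, sum_insert hj]
    have h1 : a j * ∏ i ∈ I, a i - b j * ∏ i ∈ I, b i
        = (a j - b j) * ∏ i ∈ I, a i + b j * (∏ i ∈ I, a i - ∏ i ∈ I, b i) := by ring
    rw [h1]
    refine (norm_add_le _ _).trans ?_
    rw [norm_mul, norm_mul]
    have h2 : ‖∏ i ∈ I, a i‖ ≤ 1 := by
      rw [norm_prod]
      exact prod_le_one (fun i _ => norm_nonneg _) (fun i hi => ha i (mem_insert_of_mem hi))
    have h3 := ih (fun i hi => ha i (mem_insert_of_mem hi)) (fun i hi => hb i (mem_insert_of_mem hi))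
    have h4 := hb j (mem_insert_self _ _)
    have h5 : ‖a j - b j‖ * ‖∏ i ∈ I, a i‖ ≤ ‖a j - b j‖ :=
      mul_le_of_le_one_right (norm_nonneg _) h2
    have h6 : ‖b j‖ * ‖∏ i ∈ I, a i - ∏ i ∈ I, b i‖ ≤ ‖∏ i ∈ I, a i - ∏ i ∈ I, b i‖ :=
      mul_le_of_le_one_left (norm_nonneg _) h4
    linarith

variable {p : ℕ} [Fact p.Prime] {N : ℕ → ℕ} {G : Type} [AddCommGroup G] [Fintype G]

/-- The index set of the blocks. -/
def II (n : ℕ) : Finset (Bool × ℕ) := univ ×ˢ range n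

theorem mem_II {n : ℕ} {i : Bool × ℕ} : i ∈ II n ↔ i.2 < n := by simp [II]

/-- The data and hypotheses for the multi-level induction. -/
structure Sys (π : Bool → (k : ℕ) → G → V p (N k)) (z : Bool → G → ℂ) (n : ℕ)
    (ψ : Bool → (k : ℕ) → ℝ → V p (N k) → ℝ) (κ η : ℕ → ℝ) (τ δ ε : ℝ) : Prop where
  hadd : ∀ b k g h, π b k (g + h) = π b k g + π b k h
  hz : ∀ b, ∑ g, ‖z b g‖ ≤ 2
  hψ0 : ∀ b k u, k < n → |u| ≤ 1 / 8 → ψ b k u 0 = 1
  hψ1 : ∀ b k u v, k < n → |u| ≤ 1 / 8 → |ψ b k u v| ≤ 1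
  hψav : ∀ b k u, k < n → |u| ≤ 1 / 8 → avg (fun v => (ψ b k u v : ℂ)) = u
  hψm : ∀ b k u, k < n → |u| ≤ 1 / 8 → ∑ g, ∑ h, ‖z false g‖ * ‖z true h‖ *
    |ψ b k u (π b k g) * ψ b k u (π b k h) - ψ b k u (π b k g + π b k h)| ≤ κ k
  hψL : ∀ b k u w v, k < n → |u| ≤ 1 / 8 → |w| ≤ 1 / 8 → |ψ b k u v - ψ b k w v| ≤ 2 * |u - w|
  hsel : ∀ b k (u : ℝ), k < n → |u| ≤ 1 / (16 * p) → ∀ R : Bool → G → ℂ, (∀ r g, ‖R r g‖ ≤ 1) →
    ∃ f : V p (N k), (∀ b' r, ‖∑ g, z b' g * (R r g * (chr f (π b k g)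
      - (ψ b k u (π b k g) : ℂ)))‖ ≤ κ k) ∧ |(avg (chr f)).re - u| ≤ κ k
  hprod : ∀ φ : (b : Bool) → (k : ℕ) → V p (N k) → ℂ, (∀ b k, k < n → φ b k 0 = 1) →
    ∑ g, ∑ h, z false g * z true h * ∏ i ∈ II n, φ i.1 i.2 (π i.1 i.2 (g + h))
      = (τ + ∑ k ∈ range n, (η k : ℂ) * avg (φ false k))
        * (τ + ∑ k ∈ range n, (η k : ℂ) * avg (φ true k)) - δ
  hclose : ∀ φ : (b : Bool) → (k : ℕ) → V p (N k) → ℂ, (∀ b k, k < n → φ b k 0 = 1) →
    (∀ b k v, k < n → ‖φ b k v‖ ≤ 1) → ∀ b,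
    ‖∑ g, z b g * ∏ i ∈ II n, φ i.1 i.2 (π i.1 i.2 g)
      - (τ + ∑ k ∈ range n, (η k : ℂ) * avg (φ b k))‖ ≤ ε

/-- The functional attached to a block label. -/
def vl (ψ : Bool → (k : ℕ) → ℝ → V p (N k) → ℝ) (b : Bool) (k : ℕ) (s : V p (N k) ⊕ ℝ) :
    V p (N k) → ℂ := Sum.elim chr (fun u v => (ψ b k u v : ℂ)) s

/-- The states. -/
def st (k : ℕ) (c : Bool → (l : ℕ) → V p (N l)) (x y : Bool → ℝ) :
    (b : Bool) → (l : ℕ) → V p (N l) ⊕ ℝ := fun b l =>
  if l < k then Sum.inl (c b l) else Sum.inr (if l = k then x b else if l = k + 1 then y b else 0)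

/-- Product functionals. -/
def Fn (π : Bool → (k : ℕ) → G → V p (N k)) (n : ℕ) (ψ : Bool → (k : ℕ) → ℝ → V p (N k) → ℝ)
    (s : (b : Bool) → (l : ℕ) → V p (N l) ⊕ ℝ) (g : G) : ℂ :=
  ∏ i ∈ II n, vl ψ i.1 i.2 (s i.1 i.2) (π i.1 i.2 g)

/-- Values of product functionals. -/
def XX (π : Bool → (k : ℕ) → G → V p (N k)) (z : Bool → G → ℂ) (n : ℕ)
    (ψ : Bool → (k : ℕ) → ℝ → V p (N k) → ℝ) (b : Bool)
    (s : (b : Bool) → (l : ℕ) → V p (N l) ⊕ ℝ) : ℂ := ∑ g, z b g * Fn π n ψ s g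

/-- The shift. -/
def sh (η : ℕ → ℝ) (τ : ℝ) (k : ℕ) (c : Bool → (l : ℕ) → V p (N l)) (b : Bool) : ℝ :=
  τ + ∑ l ∈ range k, η l * (avg (chr (c b l))).re

/-- The value of the symbol at a state. -/
def AV (n : ℕ) (η : ℕ → ℝ) (τ : ℝ) (k : ℕ) (c : Bool → (l : ℕ) → V p (N l)) (x y : Bool → ℝ)
    (b : Bool) : ℝ := sh η τ k c b + η k * x b + if k + 1 < n then η (k + 1) * y b else 0

variable {π : Bool → (k : ℕ) → G → V p (N k)} {z : Bool → G → ℂ} {n : ℕ}
  {ψ : Bool → (k : ℕ) → ℝ → V p (N k) → ℝ} {κ η : ℕ → ℝ} {τ δ ε : ℝ}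

/-- Valid parameters. -/
def OK (x : Bool → ℝ) : Prop := ∀ b, |x b| ≤ 1 / 8

theorem Sys.vl_zero (H : Sys π z n ψ κ η τ δ ε) {x y : Bool → ℝ} (hx : OK x) (hy : OK y)
    (k : ℕ) (c : Bool → (l : ℕ) → V p (N l)) (b : Bool) (l : ℕ) (hl : l < n) :
    vl ψ b l (st k c x y b l) 0 = 1 := by
  unfold vl st
  split_ifs
  · exact chr_zero _
  · simp only [Sum.elim_inr, H.hψ0 b l _ hl (hx b), Complex.ofReal_one]
  · simp only [Sum.elim_inr, H.hψ0 b l _ hl (hy b), Complex.ofReal_one]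
  · simp only [Sum.elim_inr, H.hψ0 b l 0 hl (by norm_num), Complex.ofReal_one]

theorem Sys.vl_norm (H : Sys π z n ψ κ η τ δ ε) {x y : Bool → ℝ} (hx : OK x) (hy : OK y)
    (k : ℕ) (c : Bool → (l : ℕ) → V p (N l)) (b : Bool) (l : ℕ) (hl : l < n) (v : V p (N l)) :
    ‖vl ψ b l (st k c x y b l) v‖ ≤ 1 := by
  unfold vl st
  split_ifs
  · exact (norm_chr _ _).le
  · simp only [Sum.elim_inr, Complex.norm_real]
    exact H.hψ1 b l _ _ hl (hx b)
  · simp only [Sum.elim_inr, Complex.norm_real]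
    exact H.hψ1 b l _ _ hl (hy b)
  · simp only [Sum.elim_inr, Complex.norm_real]
    exact H.hψ1 b l _ _ hl (by norm_num)

theorem avg_chr_re {m : ℕ} (f : V p m) : avg (chr f) = (((avg (chr f)).re : ℝ) : ℂ) := by
  obtain ⟨a, ha⟩ := avg_chr f
  rw [ha, Complex.ofReal_re]

theorem Sys.vl_avg (H : Sys π z n ψ κ η τ δ ε) {x y : Bool → ℝ} (hx : OK x) (hy : OK y)
    (k : ℕ) (c : Bool → (l : ℕ) → V p (N l)) (b : Bool) (l : ℕ) (hl : l < n) :
    avg (vl ψ b l (st k c x y b l)) = (((if l < k then (avg (chr (c b l))).re else 0)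
      + (if l = k then x b else 0) + (if l = k + 1 then y b else 0) : ℝ) : ℂ) := by
  unfold vl st
  by_cases h1 : l < k
  · have h2 : l ≠ k := by omega
    have h3 : l ≠ k + 1 := by omega
    simp only [h1, if_true, h2, if_false, h3, Sum.elim_inl, add_zero]
    exact avg_chr_re _
  · simp only [h1, if_false, Sum.elim_inr, zero_add]
    by_cases h2 : l = k
    · have h3 : l ≠ k + 1 := by omega
      rw [if_pos h2, if_pos h2, if_neg h3, add_zero]
      exact H.hψav b l _ hl (hx b)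
    · rw [if_neg h2, if_neg h2, zero_add]
      by_cases h3 : l = k + 1
      · rw [if_pos h3]
        exact H.hψav b l _ hl (hy b)
      · rw [if_neg h3]
        exact H.hψav b l _ hl (by norm_num)

theorem Sys.sum_avg (H : Sys π z n ψ κ η τ δ ε) {x y : Bool → ℝ} (hx : OK x) (hy : OK y)
    {k : ℕ} (hk : k < n) (c : Bool → (l : ℕ) → V p (N l)) (b : Bool) :
    (τ : ℂ) + ∑ l ∈ range n, (η l : ℂ) * avg (vl ψ b l (st k c x y b l))
      = (AV n η τ k c x y b : ℂ) := by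
  have h1 : ∀ l ∈ range n, (η l : ℂ) * avg (vl ψ b l (st k c x y b l))
      = (((if l < k then η l * (avg (chr (c b l))).re else 0)
      + (if l = k then η l * x b else 0) + (if l = k + 1 then η l * y b else 0) : ℝ) : ℂ) := by
    intro l hl
    rw [H.vl_avg hx hy k c b l (mem_range.1 hl), ← Complex.ofReal_mul]
    congr 1
    split_ifs <;> ring
  rw [sum_congr rfl h1, ← Complex.ofReal_sum, ← Complex.ofReal_add]
  congr 1
  unfold AV sh
  rw [sum_add_distrib, sum_add_distrib, ← sum_filter]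
  have h2 : (range n).filter (fun l => l < k) = range k := by
    ext l
    simp only [mem_filter, mem_range]
    omega
  rw [h2, sum_ite_eq', sum_ite_eq']
  simp only [mem_range, hk, if_true]
  ring

/-- The total error at level `k`. -/
def Er (κ : ℕ → ℝ) (n k : ℕ) : ℝ := ∑ i ∈ II n, if i.2 < k then 0 else κ i.2

/-- The main relation. -/
theorem Sys.main (H : Sys π z n ψ κ η τ δ ε) {x y : Bool → ℝ} (hx : OK x) (hy : OK y)
    {k : ℕ} (hk : k < n) (c : Bool → (l : ℕ) → V p (N l)) :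
    ‖XX π z n ψ false (st k c x y) * XX π z n ψ true (st k c x y)
      - ((AV n η τ k c x y false * AV n η τ k c x y true - δ : ℝ) : ℂ)‖ ≤ Er κ n k := by
  have h1 := H.hprod (fun b l => vl ψ b l (st k c x y b l))
    (fun b l hl => H.vl_zero hx hy k c b l hl)
  rw [H.sum_avg hx hy hk c false, H.sum_avg hx hy hk c true] at h1
  push_cast
  rw [← h1]
  have h2 : XX π z n ψ false (st k c x y) * XX π z n ψ true (st k c x y)
      = ∑ g, ∑ h, z false g * z true h * (∏ i ∈ II n, (vl ψ i.1 i.2 (st k c x y i.1 i.2)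
        (π i.1 i.2 g) * vl ψ i.1 i.2 (st k c x y i.1 i.2) (π i.1 i.2 h))) := by
    unfold XX Fn
    rw [sum_mul_sum]
    refine sum_congr rfl (fun g _ => sum_congr rfl (fun h _ => ?_))
    rw [prod_mul_distrib]
    ring
  rw [h2, ← sum_sub_distrib]
  simp only [← sum_sub_distrib, ← mul_sub]
  have h3 : ∀ g h, ‖z false g * z true h * (∏ i ∈ II n, (vl ψ i.1 i.2 (st k c x y i.1 i.2)
        (π i.1 i.2 g) * vl ψ i.1 i.2 (st k c x y i.1 i.2) (π i.1 i.2 h))
        - ∏ i ∈ II n, vl ψ i.1 i.2 (st k c x y i.1 i.2) (π i.1 i.2 (g + h)))‖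
      ≤ ∑ i ∈ II n, ‖z false g‖ * ‖z true h‖ * ‖vl ψ i.1 i.2 (st k c x y i.1 i.2)
        (π i.1 i.2 g) * vl ψ i.1 i.2 (st k c x y i.1 i.2) (π i.1 i.2 h)
        - vl ψ i.1 i.2 (st k c x y i.1 i.2) (π i.1 i.2 (g + h))‖ := by
    intro g h
    rw [norm_mul, norm_mul, ← mul_sum]
    refine mul_le_mul_of_nonneg_left ?_ (by positivity)
    refine norm_prod_sub_le _ _ _ (fun i hi => ?_) (fun i hi => ?_)
    · rw [norm_mul]
      exact mul_le_one₀ (H.vl_norm hx hy k c _ _ (mem_II.1 hi) _) (norm_nonneg _)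
        (H.vl_norm hx hy k c _ _ (mem_II.1 hi) _)
    · exact H.vl_norm hx hy k c _ _ (mem_II.1 hi) _
  refine (norm_sum_le _ _).trans ((sum_le_sum (fun g _ => (norm_sum_le _ _).trans
    (sum_le_sum (fun h _ => h3 g h)))).trans ?_)
  rw [sum_congr rfl (fun g _ => sum_comm), sum_comm]
  unfold Er
  refine sum_le_sum (fun i hi => ?_)
  have hin := mem_II.1 hi
  simp only [H.hadd]
  unfold vl st
  split_ifs with h5 h6 h7
  · simp only [Sum.elim_inl, chr_add, sub_self, norm_zero, mul_zero, sum_const_zero, le_refl]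
  · simp only [Sum.elim_inr, ← Complex.ofReal_mul, ← Complex.ofReal_sub, Complex.norm_real]
    exact H.hψm i.1 i.2 _ hin (hx _)
  · simp only [Sum.elim_inr, ← Complex.ofReal_mul, ← Complex.ofReal_sub, Complex.norm_real]
    exact H.hψm i.1 i.2 _ hin (hy _)
  · simp only [Sum.elim_inr, ← Complex.ofReal_mul, ← Complex.ofReal_sub, Complex.norm_real]
    exact H.hψm i.1 i.2 _ hin (by norm_num)

/-- The Lipschitz estimate. -/
theorem Sys.lip (H : Sys π z n ψ κ η τ δ ε) {x y x' y' : Bool → ℝ} (hx : OK x) (hy : OK y)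
    (hx' : OK x') (hy' : OK y') {k : ℕ} (c : Bool → (l : ℕ) → V p (N l)) (b : Bool) :
    ‖XX π z n ψ b (st k c x y) - XX π z n ψ b (st k c x' y')‖
      ≤ 4 * ((|x false - x' false| + |x true - x' true|)
        + (|y false - y' false| + |y true - y' true|)) := by
  set D : ℝ := (2 * |x false - x' false| + 2 * |x true - x' true|)
        + (2 * |y false - y' false| + 2 * |y true - y' true|) with hD
  have hD0 : 0 ≤ D := by positivity
  have h1 : ∀ g, ‖Fn π n ψ (st k c x y) g - Fn π n ψ (st k c x' y') g‖ ≤ D := by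
    intro g
    refine (norm_prod_sub_le _ _ _ (fun i hi => H.vl_norm hx hy k c _ _ (mem_II.1 hi) _)
      (fun i hi => H.vl_norm hx' hy' k c _ _ (mem_II.1 hi) _)).trans ?_
    have h2 : ∀ i ∈ II n, ‖vl ψ i.1 i.2 (st k c x y i.1 i.2) (π i.1 i.2 g)
        - vl ψ i.1 i.2 (st k c x' y' i.1 i.2) (π i.1 i.2 g)‖
        ≤ (if i.2 = k then 2 * |x i.1 - x' i.1| else 0)
          + (if i.2 = k + 1 then 2 * |y i.1 - y' i.1| else 0) := by
      intro i hi
      have hin := mem_II.1 hi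
      unfold vl st
      by_cases h5 : i.2 < k
      · have h6 : i.2 ≠ k := by omega
        have h7 : i.2 ≠ k + 1 := by omega
        simp only [h5, if_true, Sum.elim_inl, sub_self, norm_zero, h6, h7, if_false, add_zero,
          le_refl]
      · simp only [h5, if_false, Sum.elim_inr, ← Complex.ofReal_sub, Complex.norm_real]
        by_cases h6 : i.2 = k
        · have h7 : i.2 ≠ k + 1 := by omega
          simp only [h6, if_true]
          rw [if_neg (by omega : ¬ k = k + 1), add_zero]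
          exact H.hψL i.1 i.2 _ _ _ hin (hx _) (hx' _)
        · simp only [h6, if_false, zero_add]
          by_cases h7 : i.2 = k + 1
          · simp only [h7, if_true]
            exact H.hψL i.1 i.2 _ _ _ hin (hy _) (hy' _)
          · simp only [h7, if_false, sub_self, norm_zero, le_refl]
    refine (sum_le_sum h2).trans ?_
    unfold II
    rw [sum_product, Fintype.sum_bool]
    simp only [sum_add_distrib, sum_ite_eq']
    have h8 : ∀ (P : Prop) [Decidable P] (a : ℝ), 0 ≤ a → (if P then a else 0) ≤ a := by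
      intro P _ a ha
      split_ifs
      · exact le_rfl
      · exact ha
    have e1 := h8 (k ∈ range n) (2 * |x true - x' true|) (by positivity)
    have e2 := h8 (k ∈ range n) (2 * |x false - x' false|) (by positivity)
    have e3 := h8 (k + 1 ∈ range n) (2 * |y true - y' true|) (by positivity)
    have e4 := h8 (k + 1 ∈ range n) (2 * |y false - y' false|) (by positivity)
    rw [hD]
    linarith
  unfold XX
  rw [← sum_sub_distrib]
  refine (norm_sum_le _ _).trans ?_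
  have h2 : ∀ g, ‖z b g * Fn π n ψ (st k c x y) g - z b g * Fn π n ψ (st k c x' y') g‖
      ≤ ‖z b g‖ * D := by
    intro g
    rw [← mul_sub, norm_mul]
    exact mul_le_mul_of_nonneg_left (h1 g) (norm_nonneg _)
  refine (sum_le_sum (fun g _ => h2 g)).trans ?_
  rw [← sum_mul]
  have h3 := mul_le_mul_of_nonneg_right (H.hz b) hD0
  rw [hD] at h3 ⊢
  linarith

end

end Pool.Agent.NH61.OpenConv
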