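import Pool.Agent.NH61.OpenConv.Points

/-!
# Convolution on `ℓ¹(G)` is not open for infinite groups of bounded exponent
-/

open Finset Pool.Agent.V1192.GA Pool.Agent.V1192 Metric
open Pool.Agent.V1192.UOD (V)

namespace Pool.Agent.NH61.OpenConv

noncomputable section

theorem fiber_sum {Γ W R : Type} [Fintype Γ] [Fintype W] [DecidableEq W] [CommRing R]
    (π : Γ → W) (f : Γ → R) (F : W → R) :
    ∑ g, f g * F (π g) = ∑ v, (∑ g ∈ univ.filter (fun g => π g = v), f g) * F v := by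
  rw [← sum_fiberwise univ π]
  refine sum_congr rfl (fun v _ => ?_)
  rw [sum_mul]
  refine sum_congr rfl (fun g hg => ?_)
  rw [(mem_filter.1 hg).2]

theorem tail_eq (n : ℕ) : tail n = (1 / 1000 : ℝ) ^ n * (1000 / 999) := by
  unfold tail
  have h := hasSum_geometric_of_lt_one (r := (1 / 1000 : ℝ)) (by norm_num) (by norm_num)
  have h2 := h.mul_left ((1 / 1000 : ℝ) ^ n)
  have h3 : (fun k : ℕ => (1 / 1000 : ℝ) ^ (k + n))
      = fun k : ℕ => (1 / 1000 : ℝ) ^ n * (1 / 1000 : ℝ) ^ k := by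
    funext k
    rw [pow_add, mul_comm]
  rw [h3, h2.tsum_eq]
  norm_num

/-- The abelian case. -/
theorem not_open_comm (G : Type) [Group G] [Infinite G] (hcomm : ∀ x y : G, x * y = y * x)
    (m : ℕ) (hm : 0 < m) (hG : ∀ g : G, g ^ m = 1) : ¬ OpenMul (GA G) := by
  classical
  intro hA
  obtain ⟨p, hp, c, hc, t, ht⟩ : ∃ p : ℕ, p.Prime ∧ ∃ ψ : G → (ℕ → ZMod p),
      (∀ g h, ψ (g * h) = ψ g + ψ h) ∧ ∃ t : ℕ → G, ∀ j, ψ (t j) = Pi.single j 1 := by
    let _ : CommGroup G := { ‹Group G› with mul_comm := hcomm }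
    exact exists_mapsN G m hm hG
  have : Fact p.Prime := ⟨hp⟩
  have hp2 : (2 : ℝ) ≤ p := by exact_mod_cast hp.two_le
  set q : ℝ := 1 / (10 ^ 60 * p) with hq
  have hq0 : 0 < q := by positivity
  have hqp : q * p ≤ 1 / 10 ^ 60 := by
    rw [hq]
    apply le_of_eq
    field_simp
  set κ : ℕ → ℝ := fun k => ((1 / 1000 : ℝ) ^ k) ^ 8 * q with hκ
  have hκ0 : ∀ k, 0 < κ k := fun k => by rw [hκ]; positivity
  choose N hN0 hN using fun k => block p 4 (κ k) (by norm_num) (hκ0 k)
  obtain ⟨δ₀, hδ₀, hopen⟩ := hA (bad t N false) (bad t N true) (1 / 64) (by norm_num)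
  obtain ⟨n, hn0, hnδ, hnτ⟩ : ∃ n : ℕ, 0 < n ∧ ((1 / 1000 : ℝ) ^ (n - 1)) ^ 4 / 10 ^ 24 < δ₀ ∧
      |tail n| ≤ 1 / (16 * p) := by
    obtain ⟨j, hj⟩ := exists_pow_lt_of_lt_one (show 0 < min δ₀ (1 / (16 * (p : ℝ))) from
      lt_min hδ₀ (by positivity)) (show (1 / 1000 : ℝ) < 1 by norm_num)
    obtain ⟨hj1, hj2⟩ := lt_min_iff.1 hj
    have hj0 : 0 < (1 / 1000 : ℝ) ^ j := by positivity
    have hj3 : (1 / 1000 : ℝ) ^ j ≤ 1 := pow_le_one₀ (by norm_num) (by norm_num)
    refine ⟨j + 1, by omega, ?_, ?_⟩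
    · rw [Nat.add_sub_cancel]
      have h1 : ((1 / 1000 : ℝ) ^ j) ^ 4 ≤ ((1 / 1000 : ℝ) ^ j) ^ 1 :=
        pow_le_pow_of_le_one hj0.le hj3 (by norm_num)
      rw [pow_one] at h1
      have h2 : ((1 / 1000 : ℝ) ^ j) ^ 4 / 10 ^ 24 ≤ ((1 / 1000 : ℝ) ^ j) ^ 4 :=
        div_le_self (by positivity) (by norm_num)
      linarith
    · rw [tail_eq, abs_of_nonneg (by positivity), pow_succ]
      nlinarith
  set δ : ℝ := ((1 / 1000 : ℝ) ^ (n - 1)) ^ 4 / 10 ^ 24 with hδ
  have hδpos : 0 < δ := by positivity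
  obtain ⟨x, hx, y, hy, hxy⟩ := hopen (bad t N false * bad t N true - (δ : ℂ) • (1 : GA G)) (by
    rw [mem_ball, dist_eq_norm, sub_sub_cancel_left, norm_neg, norm_smul, Complex.norm_real,
      ← pt_one, norm_pt, mul_one, Real.norm_of_nonneg hδpos.le]
    exact hnδ)
  rw [mem_ball, dist_eq_norm] at hx hy
  -- the finite quotient
  let Γ : Type := (b : Bool) → (k : Fin n) → V p (N k)
  let Ψ : G → Γ := fun g b k => pr c N b k g
  have hΨ : ∀ g h, Ψ (g * h) = Ψ g + Ψ h := by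
    intro g h
    funext b k
    exact pr_mul hc b k g h
  let π : Bool → (k : ℕ) → Γ → V p (N k) := fun b k v => if h : k < n then v b ⟨k, h⟩ else 0
  have hπadd : ∀ b k g h, π b k (g + h) = π b k g + π b k h := by
    intro b k g h
    by_cases h' : k < n
    · simp only [π, dif_pos h']
      rfl
    · simp only [π, dif_neg h', add_zero]
  have hπΨ : ∀ b k g, k < n → π b k (Ψ g) = pr c N b k g := by
    intro b k g hk
    simp only [π, dif_pos hk]
    rfl
  let u : Bool → GA G := fun b => if b then y else x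
  have hu : ∀ b, ‖u b - bad t N b‖ < 1 / 64 := by
    intro b
    cases b
    · exact hx
    · exact hy
  let z : Bool → Γ → ℂ := fun b => UOC.fib Ψ (u b)
  have hz : ∀ b, ∑ g, ‖z b g‖ ≤ 2 := by
    intro b
    have h1 := UOC.sum_norm_fib Ψ (u b)
    have h2 := norm_le_norm_add_norm_sub' (u b) (bad t N b)
    have h3 := norm_bad_le (t := t) (N := N) b
    have h4 := hu b
    refine h1.trans ?_
    norm_num at h4
    linarith
  let μ₀ : Bool → (k : ℕ) → V p (N k) → ℝ := fun b k v =>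
    ∑ g ∈ univ.filter (fun g => π b k g = v), (‖z false g‖ + ‖z true g‖)
  have hμ₀ : ∀ b k v, 0 ≤ μ₀ b k v := fun b k v => sum_nonneg (fun g _ => by positivity)
  have hμ₀s : ∀ b k, ∑ v, μ₀ b k v ≤ 4 := by
    intro b k
    have h1 : ∑ v, μ₀ b k v = ∑ g, (‖z false g‖ + ‖z true g‖) :=
      sum_fiberwise univ (π b k) (fun g => ‖z false g‖ + ‖z true g‖)
    rw [h1, sum_add_distrib]
    linarith [hz false, hz true]
  choose ψ hψ0 hψ1 hψav hψm hψL hψs using fun b k => hN k (μ₀ b k) (hμ₀ b k) (hμ₀s b k)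
  -- the linear functionals
  let FF : ((b : Bool) → (k : ℕ) → V p (N k) → ℂ) → Γ → ℂ := fun φ v =>
    ∏ i ∈ II n, φ i.1 i.2 (π i.1 i.2 v)
  have hL : ∀ (φ : (b : Bool) → (k : ℕ) → V p (N k) → ℂ) g,
      UOC.LF Ψ (FF φ) (pt g) = Ft c N n φ g := by
    intro φ g
    rw [UOC.LF_pt]
    change ∏ i ∈ II n, φ i.1 i.2 (π i.1 i.2 (Ψ g)) = ∏ i ∈ II n, φ i.1 i.2 (pr c N i.1 i.2 g)
    exact prod_congr rfl (fun i hi => by rw [hπΨ _ _ _ (mem_II.1 hi)])
  have H : Sys π z n ψ κ (fun k => (1 / 1000 : ℝ) ^ k) (tail n) δ (1 / 64) := by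
    refine ⟨hπadd, hz, fun b k u _ hu => hψ0 b k u hu, fun b k u v _ hu => hψ1 b k u hu v,
      fun b k u _ hu => hψav b k u hu, ?_, fun b k u w v _ hu hw => hψL b k u w hu hw v,
      ?_, ?_, ?_⟩
    · -- multiplicativity
      intro b k u _ hu
      have h1 := hψm b k u hu
        (fun v => ∑ g ∈ univ.filter (fun g => π b k g = v), ‖z false g‖)
        (fun v => ∑ g ∈ univ.filter (fun g => π b k g = v), ‖z true g‖)
        (fun v => sum_nonneg (fun _ _ => norm_nonneg _))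
        (fun v => sum_nonneg (fun _ _ => norm_nonneg _))
        (fun v => sum_le_sum (fun g _ => le_add_of_nonneg_right (norm_nonneg _)))
        (fun v => sum_le_sum (fun g _ => le_add_of_nonneg_left (norm_nonneg _)))
      refine le_trans (le_of_eq ?_) h1
      let Fv : V p (N k) → ℝ := fun v =>
        ∑ w, (∑ h ∈ univ.filter (fun h => π b k h = w), ‖z true h‖) *
            |ψ b k u v * ψ b k u w - ψ b k u (v + w)|
      have h2 : ∀ g, ∑ h, ‖z false g‖ * ‖z true h‖ *
          |ψ b k u (π b k g) * ψ b k u (π b k h) - ψ b k u (π b k g + π b k h)|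
          = ‖z false g‖ * Fv (π b k g) := by
        intro g
        simp only [Fv]
        rw [← fiber_sum (π b k) (fun h => ‖z true h‖)
          (fun w => |ψ b k u (π b k g) * ψ b k u w - ψ b k u (π b k g + w)|), mul_sum]
        exact sum_congr rfl (fun h _ => by ring)
      rw [sum_congr rfl (fun g _ => h2 g)]
      rw [fiber_sum (π b k) (fun g => ‖z false g‖) Fv]
      refine sum_congr rfl (fun v _ => ?_)
      simp only [Fv]
      rw [mul_sum]
      exact sum_congr rfl (fun w _ => by ring)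
    · -- selection
      intro b k u _ hu R hR
      let e : Bool × Bool ≃ Fin 4 := Fintype.equivFinOfCardEq (by simp)
      obtain ⟨f, hf, a, ha, hau⟩ := hψs b k u hu
        (fun i v => ∑ g ∈ univ.filter (fun g => π b k g = v), z (e.symm i).1 g * R (e.symm i).2 g)
        (by
          intro i v
          refine (norm_sum_le _ _).trans (sum_le_sum (fun g _ => ?_))
          rw [norm_mul]
          have h1 : ‖z (e.symm i).1 g‖ * ‖R (e.symm i).2 g‖ ≤ ‖z (e.symm i).1 g‖ :=
            mul_le_of_le_one_right (norm_nonneg _) (hR _ _)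
          refine h1.trans ?_
          rcases (e.symm i).1
          · exact le_add_of_nonneg_right (norm_nonneg _)
          · exact le_add_of_nonneg_left (norm_nonneg _))
      refine ⟨f, fun b' r => ?_, ?_⟩
      · have h1 := hf (e (b', r))
        rw [← fiber_sum (π b k) _ (fun v => chr f v - (ψ b k u v : ℂ))] at h1
        simp only [Equiv.symm_apply_apply] at h1
        refine le_trans (le_of_eq ?_) h1
        congr 1
        exact sum_congr rfl (fun g _ => by ring)
      · rw [ha, Complex.ofReal_re]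
        exact hau
    · -- products
      intro φ hφ
      have h1 := UOC.LF_mul Ψ hΨ (FF φ) x y
      have h2 : UOC.LF Ψ (FF φ) (1 : GA G) = 1 := by
        rw [← pt_one, hL]
        unfold Ft
        exact prod_eq_one (fun i hi => by rw [pr_one hc, hφ _ _ (mem_II.1 hi)])
      rw [hxy, map_sub, map_smul, h2, map_mul_Ft hc ht hφ _ (hL φ),
        map_bad_Ft hc ht hφ hN0 _ (hL φ), map_bad_Ft hc ht hφ hN0 _ (hL φ), smul_eq_mul,
        mul_one] at h1
      exact h1
    · -- closeness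
      intro φ hφ hφ1 b
      have h1 : ∑ g, z b g * ∏ i ∈ II n, φ i.1 i.2 (π i.1 i.2 g) = UOC.LF Ψ (FF φ) (u b) :=
        UOC.sum_fib Ψ (FF φ) (u b)
      rw [h1, ← map_bad_Ft hc ht hφ hN0 _ (hL φ) b, ← map_sub]
      refine (UOC.norm_LF_le Ψ (FF φ) (fun v => ?_) _).trans (hu b).le
      change ‖∏ i ∈ II n, φ i.1 i.2 (π i.1 i.2 v)‖ ≤ 1
      rw [norm_prod]
      exact prod_le_one (fun i _ => norm_nonneg _) (fun i hi => hφ1 _ _ _ (mem_II.1 hi))
  exact H.contra hn0 (fun _ => rfl) hq0.le hqp (fun _ => rfl) hnτ le_rfl rfl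

/-- The general case. -/
theorem not_open (G : Type) [Group G] [Infinite G] (n : ℕ)
    (hn : 0 < n) (hG : ∀ g : G, g ^ n = 1) : ¬ OpenMul (GA G) := by
  intro hA
  refine not_open_comm G (fun x y => ?_) n hn hG hA
  refine (UO.comm_of_central (idem_central hA) x y ?_).symm
  intro h
  rw [orderOf_eq_zero_iff'] at h
  exact h n hn (hG x)

/-- Open convolution implies open multiplication of the algebra. -/
theorem openMul_of_conv {G : Type} [Group G]
    (h : IsOpenMap (fun q : lp (fun _ : G => ℂ) 1 × lp (fun _ : G => ℂ) 1 =>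
      UOE.conv q.1 q.2)) : OpenMul (GA G) := by
  intro a b ε hε
  have h1 : IsOpen ((fun q : lp (fun _ : G => ℂ) 1 × lp (fun _ : G => ℂ) 1 =>
      UOE.conv q.1 q.2) '' (ball (show lp (fun _ : G => ℂ) 1 from a) ε ×ˢ
        ball (show lp (fun _ : G => ℂ) 1 from b) ε)) :=
    h _ (isOpen_ball.prod isOpen_ball)
  obtain ⟨δ, hδ, hsub⟩ := Metric.isOpen_iff.1 h1 (UOE.conv a b)
    ⟨(a, b), ⟨mem_ball_self hε, mem_ball_self hε⟩, rfl⟩
  refine ⟨δ, hδ, fun w hw => ?_⟩
  rw [mem_ball, dist_eq_norm] at hw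
  obtain ⟨⟨x, y⟩, ⟨hx, hy⟩, hxy⟩ := @hsub (show lp (fun _ : G => ℂ) 1 from w) (by
    rw [mem_ball, dist_eq_norm, UOE.conv_eq]
    exact hw)
  have hx' := mem_ball_iff_norm.1 hx
  have hy' := mem_ball_iff_norm.1 hy
  refine ⟨(show GA G from x), mem_ball_iff_norm.2 hx', (show GA G from y),
    mem_ball_iff_norm.2 hy', ?_⟩
  have h3 : UOE.conv x y = ((show GA G from x) * (show GA G from y) : GA G) :=
    UOE.conv_eq (show GA G from x) (show GA G from y)
  rw [← h3]
  exact hxy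

end

end Pool.Agent.NH61.OpenConv
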