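import Pool.Agent.NH61.OpenConv.Induct
import Pool.Agent.NH61.OpenConv.Group

/-!
# The bad pair of elements
-/

open Finset Pool.Agent.V1192.GA Pool.Agent.V1192
open Pool.Agent.V1192.UOD (V)

namespace Pool.Agent.NH61.OpenConv

noncomputable section

set_option linter.unusedSectionVars false

variable {G : Type} [Group G] {p : ℕ} [Fact p.Prime]

/-- The enumeration of the coordinates. -/
def ei (N : ℕ → ℕ) (b : Bool) (k : ℕ) (l : Fin (N k)) : ℕ :=
  Encodable.encode (b, (⟨k, l⟩ : Σ k, Fin (N k)))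

theorem ei_inj {N : ℕ → ℕ} {b b' : Bool} {k k' : ℕ} {l : Fin (N k)} {l' : Fin (N k')}
    (h : ei N b k l = ei N b' k' l') :
    (b, (⟨k, l⟩ : Σ k, Fin (N k))) = (b', (⟨k', l'⟩ : Σ k, Fin (N k))) :=
  Encodable.encode_injective h

/-- The projections to the blocks. -/
def pr (c : G → ℕ → ZMod p) (N : ℕ → ℕ) (b : Bool) (k : ℕ) (g : G) : V p (N k) :=
  fun l => c g (ei N b k l)

/-- The group elements of the blocks. -/
def tt (t : ℕ → G) (N : ℕ → ℕ) (b : Bool) (k : ℕ) (l : Fin (N k)) : G := t (ei N b k l)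

variable {c : G → ℕ → ZMod p} {t : ℕ → G} {N : ℕ → ℕ}

theorem pr_mul (hc : ∀ g h, c (g * h) = c g + c h) (b : Bool) (k : ℕ) (g h : G) :
    pr c N b k (g * h) = pr c N b k g + pr c N b k h := by
  funext l
  simp [pr, hc]

theorem pr_one (hc : ∀ g h, c (g * h) = c g + c h) (b : Bool) (k : ℕ) :
    pr c N b k (1 : G) = 0 := by
  have h := pr_mul (N := N) hc b k 1 1
  rw [mul_one] at h
  exact left_eq_add.1 h

theorem pr_inv (hc : ∀ g h, c (g * h) = c g + c h) (b : Bool) (k : ℕ) (g : G) :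
    pr c N b k g⁻¹ = -pr c N b k g := by
  have h := pr_mul (N := N) hc b k g g⁻¹
  rw [mul_inv_cancel, pr_one hc] at h
  exact (neg_eq_of_add_eq_zero_right h.symm).symm

theorem pr_tt_self (ht : ∀ j, c (t j) = Pi.single j 1) (b : Bool) (k : ℕ) (l : Fin (N k)) :
    pr c N b k (tt t N b k l) = Pi.single l 1 := by
  funext l'
  unfold pr tt
  rw [ht]
  by_cases h : l' = l
  · subst h
    rw [Pi.single_eq_same, Pi.single_eq_same]
  · rw [Pi.single_eq_of_ne h, Pi.single_eq_of_ne]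
    intro h2
    have h3 := ei_inj h2
    simp only [Prod.mk.injEq, true_and, Sigma.mk.injEq, heq_eq_eq] at h3
    exact h h3

theorem pr_tt_ne (ht : ∀ j, c (t j) = Pi.single j 1) {b b' : Bool} {k k' : ℕ} (l : Fin (N k))
    (h : (b', k') ≠ (b, k)) : pr c N b' k' (tt t N b k l) = 0 := by
  funext l'
  unfold pr tt
  rw [ht, Pi.single_eq_of_ne]
  · rfl
  · intro h2
    have h3 := ei_inj h2
    simp only [Prod.mk.injEq, Sigma.mk.injEq] at h3
    exact h (by rw [h3.1, h3.2.1])

/-- The averages of points. -/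
def avgpt (t : ℕ → G) (N : ℕ → ℕ) (b : Bool) (k : ℕ) : GA G :=
  (1 / (2 * N k : ℂ)) • ∑ l : Fin (N k), (pt (tt t N b k l) + pt (tt t N b k l)⁻¹)

theorem norm_avgpt_le (b : Bool) (k : ℕ) : ‖avgpt t N b k‖ ≤ 1 := by
  unfold avgpt
  rw [norm_smul, norm_div, norm_one, norm_mul, Complex.norm_natCast, Complex.norm_ofNat]
  have h1 : ‖∑ l : Fin (N k), (pt (tt t N b k l) + pt (tt t N b k l)⁻¹)‖ ≤ 2 * N k := by
    refine (norm_sum_le _ _).trans ?_
    refine (sum_le_sum (fun l _ => (norm_add_le _ _).trans (le_of_eq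
      (by rw [norm_pt, norm_pt])))).trans ?_
    simp
    linarith
  rcases Nat.eq_zero_or_pos (N k) with h0 | h0
  · have h2 : (1 : ℝ) / (2 * (N k : ℝ)) = 0 := by simp [h0]
    rw [h2]; simp
  · have h2 : (0 : ℝ) < 2 * N k := by positivity
    rw [div_mul_eq_mul_div, one_mul, div_le_one h2]
    exact h1

theorem map_avgpt (T : GA G →L[ℂ] ℂ) (b : Bool) (k : ℕ) :
    T (avgpt t N b k) = (1 / (2 * N k : ℂ)) * ∑ l : Fin (N k),
      (T (pt (tt t N b k l)) + T (pt (tt t N b k l)⁻¹)) := by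
  unfold avgpt
  rw [map_smul, map_sum, smul_eq_mul]
  simp only [map_add]

theorem summable_eta : Summable (fun k : ℕ => (1 / 1000 : ℝ) ^ k) :=
  summable_geometric_of_lt_one (by norm_num) (by norm_num)

theorem summable_bad (b : Bool) :
    Summable (fun k : ℕ => (((1 / 1000 : ℝ) ^ k : ℝ) : ℂ) • avgpt t N b k) := by
  refine Summable.of_norm_bounded summable_eta (fun k => ?_)
  rw [norm_smul, Complex.norm_real, Real.norm_of_nonneg (by positivity)]
  exact mul_le_of_le_one_right (by positivity) (norm_avgpt_le b k)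

/-- The bad elements. -/
def bad (t : ℕ → G) (N : ℕ → ℕ) (b : Bool) : GA G :=
  ∑' k : ℕ, (((1 / 1000 : ℝ) ^ k : ℝ) : ℂ) • avgpt t N b k

theorem norm_bad_le (b : Bool) : ‖bad t N b‖ ≤ 1000 / 999 := by
  unfold bad
  refine tsum_of_norm_bounded (g := fun k : ℕ => (1 / 1000 : ℝ) ^ k) ?_ (fun k => ?_)
  · have h := hasSum_geometric_of_lt_one (r := (1 / 1000 : ℝ)) (by norm_num) (by norm_num)
    norm_num at h ⊢
    exact h
  · rw [norm_smul, Complex.norm_real, Real.norm_of_nonneg (by positivity)]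
    exact mul_le_of_le_one_right (by positivity) (norm_avgpt_le b k)

theorem map_bad (T : GA G →L[ℂ] ℂ) (b : Bool) :
    HasSum (fun k : ℕ => (((1 / 1000 : ℝ) ^ k : ℝ) : ℂ) * T (avgpt t N b k)) (T (bad t N b)) := by
  have h := (summable_bad (t := t) (N := N) b).hasSum.mapL T
  simp only [map_smul, smul_eq_mul] at h
  exact h

/-- Two functionals agreeing on the points agree on the bad element. -/
theorem bad_ext (T T' : GA G →L[ℂ] ℂ) (b : Bool)
    (h1 : ∀ k l, T (pt (tt t N b k l)) = T' (pt (tt t N b k l)))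
    (h2 : ∀ k l, T (pt (tt t N b k l)⁻¹) = T' (pt (tt t N b k l)⁻¹)) :
    T (bad t N b) = T' (bad t N b) := by
  have h3 := map_bad (t := t) (N := N) T b
  have h4 := map_bad (t := t) (N := N) T' b
  simp only [map_avgpt, h1, h2] at h3 h4
  exact h3.unique h4

/-- The product functional on the group. -/
def Ft (c : G → ℕ → ZMod p) (N : ℕ → ℕ) (n : ℕ) (φ : (b : Bool) → (k : ℕ) → V p (N k) → ℂ)
    (g : G) : ℂ := ∏ i ∈ II n, φ i.1 i.2 (pr c N i.1 i.2 g)

/-- Elements living in one block. -/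
def Ty (c : G → ℕ → ZMod p) (N : ℕ → ℕ) (b : Bool) (k : ℕ) (g : G) : Prop :=
  ∀ b' k', (b', k') ≠ (b, k) → pr c N b' k' g = 0

theorem Ty_tt (ht : ∀ j, c (t j) = Pi.single j 1) (b : Bool) (k : ℕ) (l : Fin (N k)) :
    Ty c N b k (tt t N b k l) := fun _ _ h => pr_tt_ne ht l h

theorem Ty_tt_inv (hc : ∀ g h, c (g * h) = c g + c h) (ht : ∀ j, c (t j) = Pi.single j 1)
    (b : Bool) (k : ℕ) (l : Fin (N k)) : Ty c N b k (tt t N b k l)⁻¹ := fun _ _ h => by
  rw [pr_inv hc, pr_tt_ne ht l h, neg_zero]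

variable {n : ℕ} {φ : (b : Bool) → (k : ℕ) → V p (N k) → ℂ}

theorem Ft_mul (hc : ∀ g h, c (g * h) = c g + c h) (hφ : ∀ b k, k < n → φ b k 0 = 1)
    {b b' : Bool} {k k' : ℕ} {g h : G} (hg : Ty c N b k g) (hh : Ty c N b' k' h)
    (hne : (b, k) ≠ (b', k')) : Ft c N n φ (g * h) = Ft c N n φ g * Ft c N n φ h := by
  unfold Ft
  rw [← prod_mul_distrib]
  refine prod_congr rfl (fun i hi => ?_)
  have hin := mem_II.1 hi
  rw [pr_mul hc]
  by_cases h1 : i = (b, k)
  · have h2 : pr c N i.1 i.2 h = 0 := hh _ _ (by rw [Prod.mk.eta, h1]; exact hne)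
    rw [h2, add_zero, hφ _ _ hin, mul_one]
  · have h2 : pr c N i.1 i.2 g = 0 := hg _ _ (by rw [Prod.mk.eta]; exact h1)
    rw [h2, zero_add, hφ _ _ hin, one_mul]

theorem Ft_Ty (hφ : ∀ b k, k < n → φ b k 0 = 1) {b : Bool} {k : ℕ} {g : G}
    (hg : Ty c N b k g) : Ft c N n φ g = if k < n then φ b k (pr c N b k g) else 1 := by
  unfold Ft
  split_ifs with h
  · rw [prod_eq_single (b, k)]
    · intro i hi hne
      rw [hg _ _ (by rw [Prod.mk.eta]; exact hne), hφ _ _ (mem_II.1 hi)]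
    · intro h1; exact absurd (mem_II.2 h) h1
  · refine prod_eq_one (fun i hi => ?_)
    have hin := mem_II.1 hi
    rw [hg _ _ (by intro h1; have := (Prod.mk.inj h1).2; omega),
      hφ _ _ hin]

/-- A continuous functional whose values on points are given by `Ft`. -/
theorem map_avgpt_Ft (hc : ∀ g h, c (g * h) = c g + c h) (ht : ∀ j, c (t j) = Pi.single j 1)
    (hφ : ∀ b k, k < n → φ b k 0 = 1) (hN : ∀ k, 0 < N k)
    (L : GA G →L[ℂ] ℂ) (hL : ∀ g, L (pt g) = Ft c N n φ g) (b : Bool) (k : ℕ) :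
    L (avgpt t N b k) = if k < n then avg (φ b k) else 1 := by
  rw [map_avgpt]
  simp only [hL]
  have h1 : ∀ l, Ft c N n φ (tt t N b k l) = if k < n then φ b k (Pi.single l 1) else 1 := by
    intro l
    rw [Ft_Ty hφ (Ty_tt ht b k l), pr_tt_self ht]
  have h2 : ∀ l, Ft c N n φ (tt t N b k l)⁻¹ = if k < n then φ b k (-Pi.single l 1) else 1 := by
    intro l
    rw [Ft_Ty hφ (Ty_tt_inv hc ht b k l), pr_inv hc, pr_tt_self ht]
  simp only [h1, h2]
  split_ifs with h
  · rfl
  · have : (N k : ℂ) ≠ 0 := by exact_mod_cast (hN k).ne'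
    simp only [sum_add_distrib, sum_const, card_univ, Fintype.card_fin, nsmul_eq_mul, mul_one]
    field_simp
    norm_num

/-- The tail. -/
def tail (n : ℕ) : ℝ := ∑' k : ℕ, (1 / 1000 : ℝ) ^ (k + n)

theorem map_bad_Ft (hc : ∀ g h, c (g * h) = c g + c h) (ht : ∀ j, c (t j) = Pi.single j 1)
    (hφ : ∀ b k, k < n → φ b k 0 = 1) (hN : ∀ k, 0 < N k)
    (L : GA G →L[ℂ] ℂ) (hL : ∀ g, L (pt g) = Ft c N n φ g) (b : Bool) :
    L (bad t N b) = (tail n : ℂ) + ∑ k ∈ range n, (((1 / 1000 : ℝ) ^ k : ℝ) : ℂ) * avg (φ b k) := by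
  have h1 := map_bad (t := t) (N := N) L b
  simp only [map_avgpt_Ft hc ht hφ hN L hL] at h1
  have h2 := (h1.summable.sum_add_tsum_nat_add n)
  rw [h1.tsum_eq] at h2
  rw [← h2, add_comm]
  congr 1
  · unfold tail
    rw [Complex.ofReal_tsum]
    refine tsum_congr (fun k => ?_)
    rw [if_neg (by omega), mul_one]
  · refine sum_congr rfl (fun k hk => ?_)
    rw [if_pos (mem_range.1 hk)]

theorem map_mul_Ft (hc : ∀ g h, c (g * h) = c g + c h) (ht : ∀ j, c (t j) = Pi.single j 1)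
    (hφ : ∀ b k, k < n → φ b k 0 = 1)
    (L : GA G →L[ℂ] ℂ) (hL : ∀ g, L (pt g) = Ft c N n φ g) :
    L (bad t N false * bad t N true) = L (bad t N false) * L (bad t N true) := by
  have step1 : ∀ (k : ℕ) (g : G), Ty c N false k g →
      L (pt g * bad t N true) = L (pt g) * L (bad t N true) := by
    intro k g hg
    have h1 := bad_ext (t := t) (N := N) (L.comp (ContinuousLinearMap.mul ℂ (GA G) (pt g)))
      (L (pt g) • L) true (fun k' l => by
        change L (pt g * pt (tt t N true k' l)) = L (pt g) * L (pt (tt t N true k' l))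
        rw [pt_mul, hL, hL, hL]
        exact Ft_mul hc hφ hg (Ty_tt ht true k' l) (by simp)) (fun k' l => by
        change L (pt g * pt (tt t N true k' l)⁻¹) = L (pt g) * L (pt (tt t N true k' l)⁻¹)
        rw [pt_mul, hL, hL, hL]
        exact Ft_mul hc hφ hg (Ty_tt_inv hc ht true k' l) (by simp))
    exact h1
  have h2 := bad_ext (t := t) (N := N)
    (L.comp ((ContinuousLinearMap.mul ℂ (GA G)).flip (bad t N true)))
    (L (bad t N true) • L) false (fun k l => by
      change L (pt (tt t N false k l) * bad t N true)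
        = L (bad t N true) * L (pt (tt t N false k l))
      rw [step1 k _ (Ty_tt ht false k l), mul_comm]) (fun k l => by
      change L (pt (tt t N false k l)⁻¹ * bad t N true)
        = L (bad t N true) * L (pt (tt t N false k l)⁻¹)
      rw [step1 k _ (Ty_tt_inv hc ht false k l), mul_comm])
  change L (bad t N false * bad t N true) = L (bad t N true) * L (bad t N false) at h2
  rw [h2, mul_comm]

end

end Pool.Agent.NH61.OpenConv
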