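import Pool.Agent.V1192.UOD

/-!
# Riesz products adapted to the combinatorial functionals
-/

open Finset
open Pool.Agent.V1192.UOD

namespace Pool.Agent.NH61.OpenConv

noncomputable section

variable {p : ℕ} [Fact p.Prime] {N : ℕ} {J : Finset (Fin N)} {S : Finset (V p N)}
variable {μ : V p N → ℝ} {M : ℕ} {η : ℝ}

/-- The total error, for functions dominated by `μ`. -/
theorem total_error' (hμ : ∀ v, 0 ≤ μ v) (hη : 0 < η) {k : ℕ} (hM : 8 * k ≤ M)
    {x y : V p N → ℝ}
    (hx : ∀ v, 0 ≤ x v) (hy : ∀ v, 0 ≤ y v) (hxμ : ∀ v, x v ≤ μ v) (hyμ : ∀ v, y v ≤ μ v)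
    (hmax : ∀ q, Psi μ M η q ≤ Psi μ M η (J, S))
    {C : ℝ} (hxC : ∑ g, x g ≤ C) (hyC : ∑ g, y g ≤ C) :
    ∑ g, ∑ h, x g * y h * BB J S g h
      ≤ C * (2 * k * 4 ^ k * η) + 2 * (C * (η * (M + 1) + C * (1 / 2) ^ k)) := by
  have hC0 : 0 ≤ C := (sum_nonneg (fun g _ => hx g)).trans hxC
  have e1 : ∑ g, ∑ h, x g * y h * BB J S g h
      ≤ ∑ g, ∑ h, (x g * y h * AA J S k g h + x g * y h * RR J S k g h
        + x g * y h * RR J S k h g) := by
    refine sum_le_sum (fun g _ => sum_le_sum (fun h _ => ?_))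
    have := mul_le_mul_of_nonneg_left (BB_le hμ hη hM hmax g h) (mul_nonneg (hx g) (hy h))
    linarith
  have e2 : ∑ g, ∑ h, x g * y h * AA J S k g h ≤ C * (2 * k * 4 ^ k * η) := by
    rw [sum_comm]
    calc ∑ h, ∑ g, x g * y h * AA J S k g h = ∑ h, y h * ∑ g, x g * AA J S k g h := by
          refine sum_congr rfl (fun h _ => ?_)
          rw [mul_sum]
          exact sum_congr rfl (fun g _ => by ring)
      _ ≤ ∑ h, y h * (2 * k * 4 ^ k * η) := sum_le_sum (fun h _ =>
          mul_le_mul_of_nonneg_left (sum_AA_le hμ hη k hmax hxμ h) (hy h))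
      _ = (∑ h, y h) * (2 * k * 4 ^ k * η) := by rw [sum_mul]
      _ ≤ _ := mul_le_mul_of_nonneg_right hyC (by positivity)
  have e3 : ∑ g, ∑ h, x g * y h * RR J S k g h ≤ C * (η * (M + 1) + C * (1 / 2) ^ k) := by
    rw [sum_comm]
    calc ∑ h, ∑ g, x g * y h * RR J S k g h = ∑ h, y h * ∑ g, x g * RR J S k g h := by
          refine sum_congr rfl (fun h _ => ?_)
          rw [mul_sum]
          exact sum_congr rfl (fun g _ => by ring)
      _ ≤ ∑ h, y h * (η * (M + 1) + C * (1 / 2) ^ k) := sum_le_sum (fun h _ =>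
          mul_le_mul_of_nonneg_left (sum_RR_le hη hmax k hx hxμ hxC h) (hy h))
      _ = (∑ h, y h) * (η * (M + 1) + C * (1 / 2) ^ k) := by rw [sum_mul]
      _ ≤ _ := mul_le_mul_of_nonneg_right hyC (by positivity)
  have e4 : ∑ g, ∑ h, x g * y h * RR J S k h g ≤ C * (η * (M + 1) + C * (1 / 2) ^ k) := by
    calc ∑ g, ∑ h, x g * y h * RR J S k h g = ∑ g, x g * ∑ h, y h * RR J S k h g := by
          refine sum_congr rfl (fun g _ => ?_)
          rw [mul_sum]
          exact sum_congr rfl (fun h _ => by ring)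
      _ ≤ ∑ g, x g * (η * (M + 1) + C * (1 / 2) ^ k) := sum_le_sum (fun g _ =>
          mul_le_mul_of_nonneg_left (sum_RR_le hη hmax k hy hyμ hyC g) (hx g))
      _ = (∑ g, x g) * (η * (M + 1) + C * (1 / 2) ^ k) := by rw [sum_mul]
      _ ≤ _ := mul_le_mul_of_nonneg_right hxC (by positivity)
  refine e1.trans ?_
  simp only [sum_add_distrib]
  linarith

/-- The penalty bounds the number of vectors in `S`. -/
theorem card_S_le (hμ : ∀ v, 0 ≤ μ v) (hη : 0 < η)
    (hmax : ∀ q, Psi μ M η q ≤ Psi μ M η (J, S)) :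
    η * (M + 1) * (S.card : ℝ) ≤ ∑ v, μ v := by
  have h1 := hmax (∅, ∅)
  simp only [Psi, card_empty, Nat.cast_zero, mul_zero, add_zero, sub_zero] at h1
  have h2 := Phi_nonneg hμ (∅ : Finset (Fin N)) (∅ : Finset (V p N))
  have h3 := Phi_le hμ J S
  have h4 : 0 ≤ η * (J.card : ℝ) := by positivity
  have h5 : η * ((J.card : ℝ) + (M + 1) * S.card)
      = η * J.card + η * (M + 1) * S.card := by ring
  linarith

/-- The characters of `F_p^N`. -/
def chr (f v : V p N) : ℂ := ∏ l, ZMod.stdAddChar (f l * v l)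

theorem chr_add (f v w : V p N) : chr f (v + w) = chr f v * chr f w := by
  unfold chr
  rw [← prod_mul_distrib]
  refine prod_congr rfl (fun l _ => ?_)
  rw [Pi.add_apply, mul_add, AddChar.map_add_eq_mul]

theorem chr_zero (f : V p N) : chr f 0 = 1 := by
  unfold chr
  simp

theorem norm_chr (f v : V p N) : ‖chr f v‖ = 1 := by
  unfold chr
  rw [norm_prod]
  refine prod_eq_one (fun l _ => ?_)
  exact AddChar.norm_apply _ _

theorem chr_neg (f v : V p N) : chr f (-v) = (starRingEnd ℂ) (chr f v) := by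
  have h1 : chr f v * chr f (-v) = 1 := by
    rw [← chr_add, add_neg_cancel, chr_zero]
  have h2 : chr f v * (starRingEnd ℂ) (chr f v) = 1 := by
    rw [Complex.mul_conj, Complex.normSq_eq_norm_sq, norm_chr]; norm_num
  have h3 : chr f v ≠ 0 := by
    intro h; have := norm_chr f v; rw [h] at this; simp at this
  exact mul_left_cancel₀ h3 (h1.trans h2.symm)

/-- The factors of the Riesz product. -/
def wgt (J : Finset (Fin N)) (z : ℝ) (l : Fin N) (c : ZMod p) : ℝ :=
  if l ∈ J then (if c = 0 then 1 else 0) else ((1 - z) / p + if c = 0 then z else 0)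

theorem wgt_nonneg {z : ℝ} (hz : |z| * p ≤ 1) (l : Fin N) (c : ZMod p) : 0 ≤ wgt J z l c := by
  have hp : (2 : ℝ) ≤ p := by exact_mod_cast (Fact.out : p.Prime).two_le
  have hz1 : |z| ≤ 1 / 2 := by
    nlinarith [abs_nonneg z]
  obtain ⟨h1, h2⟩ := abs_le.1 hz1
  unfold wgt
  split_ifs
  · exact zero_le_one
  · exact le_rfl
  · have h3 : -1 ≤ z * p := by
      have := neg_abs_le (z * p)
      rw [abs_mul, abs_of_nonneg (by linarith : (0 : ℝ) ≤ p)] at this
      linarith
    have h4 : (1 - z) / p + z = (1 - z + z * p) / p := by field_simp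
    rw [h4]
    apply div_nonneg _ (by linarith)
    nlinarith [neg_abs_le z, le_abs_self z]
  · rw [add_zero]
    exact div_nonneg (by linarith) (by linarith)

open Classical in
theorem wgt_hat (z : ℝ) (l : Fin N) (b : ZMod p) :
    ∑ c : ZMod p, (wgt J z l c : ℂ) * ZMod.stdAddChar (c * b)
      = if l ∉ J ∧ b ≠ 0 then (z : ℂ) else 1 := by
  have hp0 : (p : ℂ) ≠ 0 := by exact_mod_cast (Fact.out : p.Prime).ne_zero
  unfold wgt
  by_cases hl : l ∈ J
  · simp only [hl, if_true, not_true_eq_false, false_and, if_false]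
    rw [sum_eq_single 0]
    · simp
    · intro c _ hc; simp [hc]
    · intro h; exact absurd (mem_univ _) h
  · simp only [hl, if_false, not_false_eq_true, true_and]
    have h1 : ∀ c : ZMod p, (((1 - z) / p + if c = 0 then z else 0 : ℝ) : ℂ)
        * ZMod.stdAddChar (c * b)
        = ((1 - z) / p : ℂ) * ZMod.stdAddChar (c * b)
          + (if c = 0 then (z : ℂ) else 0) * ZMod.stdAddChar (c * b) := by
      intro c
      split_ifs
      · push_cast; ring
      · push_cast; ring
    simp only [h1, sum_add_distrib, ← mul_sum]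
    rw [AddChar.sum_mulShift b (ZMod.isPrimitive_stdAddChar p)]
    rw [sum_eq_single (0 : ZMod p) (by intro c _ hc; simp [hc])
      (by intro h; exact absurd (mem_univ _) h)]
    by_cases hb : b = 0
    · simp only [hb, if_true, ne_eq, not_true_eq_false, if_false, ZMod.card]
      simp
    · simp [hb]

open Classical in
/-- The span of `S`, as a finite set. -/
def SP (S : Finset (V p N)) : Finset (V p N) :=
  univ.filter (fun s => s ∈ Submodule.span (ZMod p) (S : Set (V p N)))

theorem mem_SP {s : V p N} : s ∈ SP S ↔ s ∈ Submodule.span (ZMod p) (S : Set (V p N)) := by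
  simp [SP]

theorem card_SP_le (S : Finset (V p N)) : (SP S).card ≤ p ^ S.card := by
  classical
  have h1 : SP S ⊆ (univ : Finset (S → ZMod p)).image (fun c => ∑ a : S, c a • (a : V p N)) := by
    intro s hs
    rw [mem_SP] at hs
    obtain ⟨c, _, hc⟩ := Submodule.mem_span_finset.1 hs
    rw [mem_image]
    refine ⟨fun a => c a, mem_univ _, ?_⟩
    rw [← hc, ← sum_coe_sort S (fun a => c a • a)]
  refine (card_le_card h1).trans (card_image_le.trans ?_)
  rw [card_univ, Fintype.card_fun, ZMod.card, Fintype.card_coe]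

/-- The average of a character over the span. -/
theorem sum_SP_chr (S : Finset (V p N)) (f : V p N) :
    ∃ r : ℝ, 0 ≤ r ∧ ∑ s ∈ SP S, chr f s = (r : ℂ) := by
  classical
  by_cases h : ∀ s ∈ SP S, chr f s = 1
  · refine ⟨(SP S).card, by positivity, ?_⟩
    rw [sum_congr rfl h]
    simp
  · push Not at h
    obtain ⟨s₀, hs₀, hne⟩ := h
    refine ⟨0, le_rfl, ?_⟩
    have h1 : ∑ s ∈ SP S, chr f s = ∑ s ∈ SP S, chr f (s₀ + s) := by
      symm
      refine sum_bij (fun s _ => s₀ + s) ?_ ?_ ?_ ?_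
      · intro s hs
        rw [mem_SP] at hs hs₀ ⊢
        exact Submodule.add_mem _ hs₀ hs
      · intro a _ b _ hab
        exact add_left_cancel hab
      · intro b hb
        refine ⟨b - s₀, ?_, by abel⟩
        rw [mem_SP] at hb hs₀ ⊢
        exact Submodule.sub_mem _ hb hs₀
      · intro s _; rfl
    have h2 : ∑ s ∈ SP S, chr f s = chr f s₀ * ∑ s ∈ SP S, chr f s := by
      conv_lhs => rw [h1]
      rw [mul_sum]
      exact sum_congr rfl (fun s _ => chr_add f s₀ s)
    have h3 : (1 - chr f s₀) * ∑ s ∈ SP S, chr f s = 0 := by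
      rw [sub_mul, one_mul, ← h2, sub_self]
    rw [Complex.ofReal_zero]
    exact (mul_eq_zero.1 h3).resolve_left (sub_ne_zero.2 (Ne.symm hne))

/-- The Riesz weights. -/
def RW (J : Finset (Fin N)) (S : Finset (V p N)) (z : ℝ) (f : V p N) : ℝ :=
  (∏ l, wgt J z l (f l)) * (sum_SP_chr S f).choose

theorem RW_nonneg {z : ℝ} (hz : |z| * p ≤ 1) (f : V p N) : 0 ≤ RW J S z f :=
  mul_nonneg (prod_nonneg (fun l _ => wgt_nonneg hz l _)) (sum_SP_chr S f).choose_spec.1

/-- The Fourier coefficients of the Riesz weights. -/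
def TT (J : Finset (Fin N)) (S : Finset (V p N)) (z : ℝ) (v : V p N) : ℝ :=
  ∑ s ∈ SP S, z ^ wt J (v + s)

theorem RW_hat (z : ℝ) (v : V p N) :
    ∑ f : V p N, (RW J S z f : ℂ) * chr f v = (TT J S z v : ℂ) := by
  classical
  have h1 : ∀ f : V p N, (RW J S z f : ℂ) * chr f v
      = ∑ s ∈ SP S, ∏ l, ((wgt J z l (f l) : ℂ) * ZMod.stdAddChar (f l * (v l + s l))) := by
    intro f
    unfold RW
    rw [Complex.ofReal_mul, ← (sum_SP_chr S f).choose_spec.2, Complex.ofReal_prod]
    rw [mul_sum, sum_mul]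
    refine sum_congr rfl (fun s _ => ?_)
    rw [prod_mul_distrib, mul_assoc]
    congr 1
    rw [mul_comm, ← chr_add]
    rfl
  simp only [h1]
  rw [sum_comm]
  unfold TT
  rw [Complex.ofReal_sum]
  refine sum_congr rfl (fun s _ => ?_)
  have h2 := Finset.prod_univ_sum (fun _ : Fin N => (univ : Finset (ZMod p)))
    (fun l c => (wgt J z l c : ℂ) * ZMod.stdAddChar (c * (v l + s l)))
  rw [Fintype.piFinset_univ] at h2
  rw [← h2]
  simp only [wgt_hat]
  rw [prod_ite, prod_const, prod_const_one, mul_one, Complex.ofReal_pow]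
  rfl

variable (hμ : ∀ v, 0 ≤ μ v) (hη : 0 < η)
    (hmax : ∀ q, Psi μ M η q ≤ Psi μ M η (J, S))

include hμ hη hmax

theorem TT_close {z : ℝ} (hz : |z| ≤ 1 / 4) (v : V p N) :
    |TT J S z v - z ^ dst J S v| ≤ (SP S).card * (1 / 2) ^ (M + 1) := by
  classical
  set l := near J S v with hl
  have hlm : -l ∈ SP S := by
    rw [mem_SP]; exact Submodule.neg_mem _ (near_mem v)
  unfold TT
  rw [← add_sum_erase _ _ hlm]
  have h1 : wt J (v + -l) = dst J S v := by
    rw [← sub_eq_add_neg]; exact near_wt v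
  rw [h1, add_sub_cancel_left]
  refine (abs_sum_le_sum_abs _ _).trans ?_
  have h2 : ∀ s ∈ (SP S).erase (-l), |z ^ wt J (v + s)| ≤ (1 / 2) ^ (M + 1) := by
    intro s hs
    rw [mem_erase] at hs
    have h3 : M + 1 ≤ wt J (s + l) := by
      by_contra hcon
      have h4 := span_small hμ hη hmax (l := s + l)
        (Submodule.add_mem _ (mem_SP.1 hs.2) (near_mem v)) (by omega)
      exact hs.1 (eq_neg_of_add_eq_zero_left h4)
    have h4 : wt J (s + l) ≤ wt J (v + s) + wt J (v - l) := by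
      have h5 := wt_add J (v + s) (-(v - l))
      rw [wt_neg] at h5
      have h6 : v + s + -(v - l) = s + l := by abel
      rw [h6] at h5
      exact h5
    have h5 : wt J (v - l) ≤ wt J (v + s) := by
      have h6 : wt J (v - l) = dst J S v := near_wt v
      rw [h6]
      have h7 := dst_le (J := J) (S := S) (v := v) (l := -s)
        (Submodule.neg_mem _ (mem_SP.1 hs.2))
      rwa [sub_neg_eq_add] at h7
    have h6 : M + 1 ≤ 2 * wt J (v + s) := by omega
    rw [abs_pow]
    calc |z| ^ wt J (v + s) ≤ (1 / 4) ^ wt J (v + s) :=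
          pow_le_pow_left₀ (abs_nonneg _) hz _
      _ = (1 / 2) ^ (2 * wt J (v + s)) := by rw [pow_mul]; norm_num
      _ ≤ _ := half_pow_le h6
  refine (sum_le_sum h2).trans ?_
  rw [sum_const, nsmul_eq_mul]
  refine mul_le_mul_of_nonneg_right ?_ (by positivity)
  exact_mod_cast card_erase_le

end

end Pool.Agent.NH61.OpenConv
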