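import Pool.Agent.NH61.OpenConv.Level

/-!
# The steps of the multi-level induction
-/

open Finset
open Pool.Agent.V1192.UOD

namespace Pool.Agent.NH61.OpenConv

noncomputable section

variable {p : ℕ} [Fact p.Prime] {N : ℕ → ℕ} {G : Type} [AddCommGroup G] [Fintype G]
variable {π : Bool → (k : ℕ) → G → V p (N k)} {z : Bool → G → ℂ} {n : ℕ}
  {ψ : Bool → (k : ℕ) → ℝ → V p (N k) → ℝ} {κ η : ℕ → ℝ} {τ δ ε : ℝ}

/-- The symmetric form of the main relation. -/
theorem Sys.main' (H : Sys π z n ψ κ η τ δ ε) {x y : Bool → ℝ} (hx : OK x) (hy : OK y)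
    {k : ℕ} (hk : k < n) (c : Bool → (l : ℕ) → V p (N l)) (b : Bool) :
    ‖XX π z n ψ b (st k c x y) * XX π z n ψ (!b) (st k c x y)
      - ((AV n η τ k c x y b * AV n η τ k c x y (!b) - δ : ℝ) : ℂ)‖ ≤ Er κ n k := by
  have h := H.main hx hy hk c
  cases b
  · exact h
  · rw [Bool.not_true, mul_comm (XX π z n ψ true _), mul_comm (AV n η τ k c x y true)]
    exact h

theorem Sys.prod_le (H : Sys π z n ψ κ η τ δ ε) {x y : Bool → ℝ} (hx : OK x) (hy : OK y)
    {k : ℕ} (hk : k < n) (c : Bool → (l : ℕ) → V p (N l)) (b : Bool) :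
    ‖XX π z n ψ b (st k c x y)‖ * ‖XX π z n ψ (!b) (st k c x y)‖
      ≤ |AV n η τ k c x y b * AV n η τ k c x y (!b) - δ| + Er κ n k := by
  have h := H.main' hx hy hk c b
  rw [← norm_mul]
  have h2 := norm_le_norm_add_norm_sub'
    (XX π z n ψ b (st k c x y) * XX π z n ψ (!b) (st k c x y))
    ((AV n η τ k c x y b * AV n η τ k c x y (!b) - δ : ℝ) : ℂ)
  rw [Complex.norm_real, Real.norm_eq_abs] at h2
  linarith

/-- The gap inequality. -/
theorem Sys.gap (H : Sys π z n ψ κ η τ δ ε) {x y : Bool → ℝ} (hx : OK x) (hy : OK y)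
    {k : ℕ} (hk : k < n) (c : Bool → (l : ℕ) → V p (N l)) (b : Bool) {h : ℝ} (hh : 0 ≤ h)
    (hxh : |x b + h| ≤ 1 / 8) :
    η k * h * AV n η τ k c x y (!b)
      - |AV n η τ k c x y b * AV n η τ k c x y (!b) - δ| - Er κ n k
      ≤ (‖XX π z n ψ b (st k c x y)‖ + 4 * h) * (‖XX π z n ψ (!b) (st k c x y)‖ + 4 * h) := by
  classical
  set x' : Bool → ℝ := Function.update x b (x b + h) with hx'
  have hx'b : x' b = x b + h := by rw [hx']; exact Function.update_self _ _ _
  have hx'n : x' (!b) = x (!b) := by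
    rw [hx']; exact Function.update_of_ne (by cases b <;> simp) _ _
  have hxOK : OK x' := by
    intro b'
    by_cases hb : b' = b
    · rw [hb, hx'b]; exact hxh
    · have : b' = !b := by cases b <;> cases b' <;> simp_all
      rw [this, hx'n]; exact hx _
  have hlip : ∀ b', ‖XX π z n ψ b' (st k c x' y)‖ ≤ ‖XX π z n ψ b' (st k c x y)‖ + 4 * h := by
    intro b'
    have h1 := H.lip hxOK hy hx hy (k := k) c b'
    have h2 : |x' false - x false| + |x' true - x true| = h := by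
      cases b
      · have e1 : x' true = x true := hx'n
        rw [e1, hx'b, sub_self, abs_zero, add_zero, add_sub_cancel_left, abs_of_nonneg hh]
      · have e1 : x' false = x false := hx'n
        rw [e1, hx'b, sub_self, abs_zero, zero_add, add_sub_cancel_left, abs_of_nonneg hh]
    rw [h2, sub_self, sub_self, abs_zero, add_zero, add_zero] at h1
    have h3 := norm_le_norm_add_norm_sub' (XX π z n ψ b' (st k c x' y))
      (XX π z n ψ b' (st k c x y))
    linarith
  have hA1 : AV n η τ k c x' y b = AV n η τ k c x y b + η k * h := by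
    unfold AV; rw [hx'b]; ring
  have hA2 : AV n η τ k c x' y (!b) = AV n η τ k c x y (!b) := by
    unfold AV; rw [hx'n]
  have h1 := H.main' hxOK hy hk c b
  rw [hA1, hA2] at h1
  have h2 : (AV n η τ k c x y b + η k * h) * AV n η τ k c x y (!b) - δ
      ≤ ‖XX π z n ψ b (st k c x' y) * XX π z n ψ (!b) (st k c x' y)‖ + Er κ n k := by
    have h3 := norm_le_norm_add_norm_sub
      (XX π z n ψ b (st k c x' y) * XX π z n ψ (!b) (st k c x' y))
      (((AV n η τ k c x y b + η k * h) * AV n η τ k c x y (!b) - δ : ℝ) : ℂ)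
    rw [Complex.norm_real] at h3
    have h4 := le_abs_self ((AV n η τ k c x y b + η k * h) * AV n η τ k c x y (!b) - δ)
    rw [← Real.norm_eq_abs] at h4
    linarith
  have h5 : ‖XX π z n ψ b (st k c x' y) * XX π z n ψ (!b) (st k c x' y)‖
      ≤ (‖XX π z n ψ b (st k c x y)‖ + 4 * h) * (‖XX π z n ψ (!b) (st k c x y)‖ + 4 * h) := by
    rw [norm_mul]
    exact mul_le_mul (hlip b) (hlip (!b)) (norm_nonneg _) (by positivity)
  have h6 := neg_abs_le (AV n η τ k c x y b * AV n η τ k c x y (!b) - δ)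
  have h7 : (AV n η τ k c x y b + η k * h) * AV n η τ k c x y (!b) - δ
      = η k * h * AV n η τ k c x y (!b) + (AV n η τ k c x y b * AV n η τ k c x y (!b) - δ) := by
    ring
  linarith

/-- The case where one of the symbols vanishes. -/
theorem Sys.gap0 (H : Sys π z n ψ κ η τ δ ε) {x y : Bool → ℝ} (hx : OK x) (hy : OK y)
    {k : ℕ} (hk : k < n) (c : Bool → (l : ℕ) → V p (N l)) (b : Bool) {e S D : ℝ}
    (he : η k = e) (he0 : 0 < e) (he1 : e ≤ 1) (hxb : |x b| ≤ 1 / 16)
    (hA : AV n η τ k c x y b = 0) (hS : AV n η τ k c x y (!b) = S) (hS0 : 0 < S) (hS1 : S ≤ 1)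
    (hδ : 0 ≤ δ) (hD : δ + Er κ n k ≤ D) (hlt : 512 * D < e ^ 2 * S ^ 2)
    (hle : ‖XX π z n ψ b (st k c x y)‖ ≤ ‖XX π z n ψ (!b) (st k c x y)‖) :
    e * S / 16 ≤ ‖XX π z n ψ (!b) (st k c x y)‖ ∧
      ‖XX π z n ψ b (st k c x y)‖ * ‖XX π z n ψ (!b) (st k c x y)‖ ≤ D := by
  have h1 := H.prod_le hx hy hk c b
  rw [hA, zero_mul, zero_sub, abs_neg, abs_of_nonneg hδ] at h1
  refine ⟨?_, h1.trans hD⟩
  by_contra hcon
  push Not at hcon
  set r := ‖XX π z n ψ b (st k c x y)‖ with hr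
  set r' := ‖XX π z n ψ (!b) (st k c x y)‖ with hr'
  have hr0 : 0 ≤ r := norm_nonneg _
  have hr'0 : 0 ≤ r' := norm_nonneg _
  have heS : 0 < e * S := by positivity
  have heS1 : e * S ≤ 1 := mul_le_one₀ he1 hS0.le hS1
  have h2 := H.gap hx hy hk c b (h := e * S / 64) (by positivity) (by
    have := abs_add_le (x b) (e * S / 64)
    rw [abs_of_nonneg (by positivity : 0 ≤ e * S / 64)] at this
    linarith)
  rw [hA, zero_mul, zero_sub, abs_neg, abs_of_nonneg hδ, hS, he, ← hr, ← hr'] at h2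
  -- `e h S ≤ 2 D + (3/4) e h S`
  have h3 : (r + 4 * (e * S / 64)) * (r' + 4 * (e * S / 64))
      ≤ D + (e * S / 16) * (e * S / 16) * 2 + (e * S / 16) ^ 2 := by
    have : (r + 4 * (e * S / 64)) * (r' + 4 * (e * S / 64))
        = r * r' + (e * S / 16) * (r + r') + (e * S / 16) ^ 2 := by ring
    rw [this]
    have h4 : (e * S / 16) * (r + r') ≤ (e * S / 16) * (e * S / 16) * 2 := by
      rw [mul_assoc]
      exact mul_le_mul_of_nonneg_left (by linarith) (by positivity)
    linarith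
  nlinarith

/-- The error bound. -/
theorem Er_le {κ : ℕ → ℝ} {q : ℝ} (hq : 0 ≤ q)
    (hκ : ∀ k, κ k = ((1 / 1000 : ℝ) ^ k) ^ 8 * q) (n k : ℕ) : Er κ n k ≤ 3 * κ k := by
  unfold Er II
  rw [sum_product, Fintype.sum_bool]
  have h1 : ∑ l ∈ range n, (if l < k then (0 : ℝ) else κ l) ≤ 3 / 2 * κ k := by
    have h2 : ∑ l ∈ range n, (if l < k then (0 : ℝ) else κ l) = ∑ l ∈ Ico k n, κ l := by
      have h0 : ∀ l, (if l < k then (0 : ℝ) else κ l) = if k ≤ l then κ l else 0 := by
        intro l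
        by_cases h : l < k
        · rw [if_pos h, if_neg (by omega)]
        · rw [if_neg h, if_pos (by omega)]
      simp only [h0]
      rw [← sum_filter]
      apply sum_congr _ (fun _ _ => rfl)
      ext l
      simp only [mem_filter, mem_range, mem_Ico]
      omega
    rw [h2]
    have h3 : ∀ l, κ l = ((1 / 1000 : ℝ) ^ 8) ^ l * q := by
      intro l; rw [hκ, ← pow_mul, ← pow_mul, mul_comm l 8]
    simp only [h3, ← sum_mul]
    have h4 := geom_sum_Ico_le_of_lt_one (x := (1 / 1000 : ℝ) ^ 8) (by positivity) (by norm_num)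
      (m := k) (n := n)
    rw [le_div_iff₀ (by norm_num)] at h4
    have h5 : ∑ i ∈ Ico k n, ((1 / 1000 : ℝ) ^ 8) ^ i ≤ 3 / 2 * ((1 / 1000 : ℝ) ^ 8) ^ k := by
      have h6 : 0 ≤ ∑ i ∈ Ico k n, ((1 / 1000 : ℝ) ^ 8) ^ i := sum_nonneg (fun _ _ => by positivity)
      have h7 : (2 : ℝ) / 3 ≤ 1 - (1 / 1000 : ℝ) ^ 8 := by norm_num
      nlinarith
    rw [← mul_assoc]
    exact mul_le_mul_of_nonneg_right h5 hq
  simp only
  linarith

/-- Update of a state in one block. -/
def upd (s : (b : Bool) → (l : ℕ) → V p (N l) ⊕ ℝ) (b₀ : Bool) (k₀ : ℕ) (v : V p (N k₀) ⊕ ℝ) :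
    (b : Bool) → (l : ℕ) → V p (N l) ⊕ ℝ :=
  Function.update s b₀ (Function.update (s b₀) k₀ v)

omit [Fact p.Prime] in
theorem upd_self (s : (b : Bool) → (l : ℕ) → V p (N l) ⊕ ℝ) (b₀ : Bool) (k₀ : ℕ)
    (v : V p (N k₀) ⊕ ℝ) : upd s b₀ k₀ v b₀ k₀ = v := by
  unfold upd
  rw [Function.update_self, Function.update_self]

omit [Fact p.Prime] in
theorem upd_ne (s : (b : Bool) → (l : ℕ) → V p (N l) ⊕ ℝ) (b₀ : Bool) (k₀ : ℕ)
    (v : V p (N k₀) ⊕ ℝ) {b : Bool} {l : ℕ} (h : (b, l) ≠ (b₀, k₀)) :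
    upd s b₀ k₀ v b l = s b l := by
  unfold upd
  by_cases hb : b = b₀
  · subst hb
    rw [Function.update_self]
    exact Function.update_of_ne (fun hl => h (by rw [hl])) _ _
  · rw [Function.update_of_ne hb]

/-- Selection in one block. -/
theorem Sys.sel_one (H : Sys π z n ψ κ η τ δ ε) (b₀ : Bool) {k₀ : ℕ} (hk : k₀ < n)
    (s : Bool → (b : Bool) → (l : ℕ) → V p (N l) ⊕ ℝ)
    (hs : ∀ r b l v, l < n → ‖vl ψ b l (s r b l) v‖ ≤ 1) {u : ℝ} (hu : |u| ≤ 1 / (16 * p))
    (hsu : ∀ r, s r b₀ k₀ = Sum.inr u) :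
    ∃ f : V p (N k₀), |(avg (chr f)).re - u| ≤ κ k₀ ∧ ∀ b r,
      ‖XX π z n ψ b (upd (s r) b₀ k₀ (Sum.inl f)) - XX π z n ψ b (s r)‖ ≤ κ k₀ := by
  classical
  obtain ⟨f, hf, hfa⟩ := H.hsel b₀ k₀ u hk hu
    (fun r g => ∏ i ∈ (II n).erase (b₀, k₀), vl ψ i.1 i.2 (s r i.1 i.2) (π i.1 i.2 g)) (by
      intro r g
      rw [norm_prod]
      exact prod_le_one (fun i _ => norm_nonneg _)
        (fun i hi => hs r _ _ _ (mem_II.1 (mem_of_mem_erase hi))))
  refine ⟨f, hfa, fun b r => ?_⟩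
  refine le_trans (le_of_eq ?_) (hf b r)
  congr 1
  unfold XX
  rw [← sum_sub_distrib]
  refine sum_congr rfl (fun g _ => ?_)
  rw [← mul_sub]
  congr 1
  unfold Fn
  have hmem : (b₀, k₀) ∈ II n := mem_II.2 hk
  rw [← mul_prod_erase (II n) _ hmem, ← mul_prod_erase (II n) _ hmem]
  have h1 : ∏ i ∈ (II n).erase (b₀, k₀), vl ψ i.1 i.2 (upd (s r) b₀ k₀ (Sum.inl f) i.1 i.2)
      (π i.1 i.2 g) = ∏ i ∈ (II n).erase (b₀, k₀), vl ψ i.1 i.2 (s r i.1 i.2) (π i.1 i.2 g) := by
    refine prod_congr rfl (fun i hi => ?_)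
    rw [upd_ne]
    exact (mem_erase.1 hi).1
  rw [h1]
  simp only [upd_self, hsu]
  unfold vl
  simp only [Sum.elim_inl, Sum.elim_inr]
  ring

/-- Selection in the two blocks of a level. -/
theorem Sys.select (H : Sys π z n ψ κ η τ δ ε) {k : ℕ} (hk : k < n)
    (c : Bool → (l : ℕ) → V p (N l)) (x : Bool → ℝ) (hx : ∀ b, |x b| ≤ 1 / (16 * p))
    (y : Bool → Bool → ℝ) (hy : ∀ r, OK (y r)) :
    ∃ c' : Bool → (l : ℕ) → V p (N l), (∀ b l, l < k → c' b l = c b l) ∧
      (∀ b, |(avg (chr (c' b k))).re - x b| ≤ κ k) ∧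
      ∀ b r, ‖XX π z n ψ b (st (k + 1) c' (y r) (fun _ => 0)) - XX π z n ψ b (st k c x (y r))‖
        ≤ 2 * κ k := by
  classical
  have hp2 : (2 : ℝ) ≤ p := by exact_mod_cast (Fact.out : p.Prime).two_le
  have hxOK : OK x := by
    intro b
    refine (hx b).trans ?_
    rw [div_le_div_iff₀ (by positivity) (by norm_num)]
    linarith
  obtain ⟨f₀, hf₀, hf₀X⟩ := H.sel_one false hk (fun r => st k c x (y r))
    (fun r b l v hl => H.vl_norm hxOK (hy r) k c b l hl v) (hx false)
    (fun r => by unfold st; simp)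
  obtain ⟨f₁, hf₁, hf₁X⟩ := H.sel_one true hk
    (fun r => upd (st k c x (y r)) false k (Sum.inl f₀))
    (fun r b l v hl => by
      by_cases h : (b, l) = (false, k)
      · obtain ⟨rfl, rfl⟩ := Prod.mk.inj h
        rw [upd_self]
        exact (norm_chr _ _).le
      · rw [upd_ne _ _ _ _ h]
        exact H.vl_norm hxOK (hy r) k c b l hl v) (hx true)
    (fun r => by
      rw [upd_ne _ _ _ _ (by simp)]
      unfold st; simp)
  refine ⟨fun b => Function.update (c b) k (if b then f₁ else f₀), ?_, ?_, ?_⟩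
  · intro b l hl
    exact Function.update_of_ne hl.ne _ _
  · intro b
    have h1 : (fun b => Function.update (c b) k (if b then f₁ else f₀)) b k
        = if b then f₁ else f₀ := Function.update_self _ _ _
    rw [h1]
    cases b
    · simpa using hf₀
    · simpa using hf₁
  · intro b r
    have hst : st (k + 1) (fun b => Function.update (c b) k (if b then f₁ else f₀)) (y r)
        (fun _ => 0)
        = upd (upd (st k c x (y r)) false k (Sum.inl f₀)) true k (Sum.inl f₁) := by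
      funext b l
      by_cases hl : l = k
      · subst hl
        cases b
        · rw [upd_ne _ _ _ _ (by simp), upd_self]
          unfold st
          simp
        · rw [upd_self]
          unfold st
          simp
      · rw [upd_ne _ _ _ _ (fun h => hl (Prod.mk.inj h).2),
          upd_ne _ _ _ _ (fun h => hl (Prod.mk.inj h).2)]
        unfold st
        by_cases h1 : l < k
        · have h2 : l < k + 1 := by omega
          rw [if_pos h1, if_pos h2]
          congr 1
          exact Function.update_of_ne hl _ _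
        · have h2 : ¬ l < k + 1 := by omega
          rw [if_neg h1, if_neg h2, if_neg hl]
          congr 1
          split_ifs <;> rfl
    rw [hst]
    have h1 := hf₀X b r
    have h2 := hf₁X b r
    have h3 := norm_add_le
      (XX π z n ψ b (upd (upd (st k c x (y r)) false k (Sum.inl f₀)) true k (Sum.inl f₁))
        - XX π z n ψ b (upd (st k c x (y r)) false k (Sum.inl f₀)))
      (XX π z n ψ b (upd (st k c x (y r)) false k (Sum.inl f₀)) - XX π z n ψ b (st k c x (y r)))
    rw [sub_add_sub_cancel] at h3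
    linarith

end

end Pool.Agent.NH61.OpenConv
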